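import Pool.Agent.Lib.MP_d5a392_an.Total

open MeasureTheory ProbabilityTheory Set Filter Topology
open scoped ENNReal

namespace Pool.Agent.Lib.MP_d5a392_an

/-- The index set (the Cantor set). -/
abbrev Γ : Type := ℕ → Bool

/-- Finite tables of rational numbers. -/
def Tab : Type := Σ n : ℕ, ((Fin n → Bool) → ℚ)

instance : Countable Tab := inferInstanceAs (Countable (Σ n : ℕ, ((Fin n → Bool) → ℚ)))
instance : MeasurableSpace Tab := ⊤
instance : DiscreteMeasurableSpace Tab := ⟨fun _ => trivial⟩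
instance : Inhabited Tab := ⟨⟨0, fun _ => 0⟩⟩

/-- The function with a given table. -/
noncomputable def ev (τ : Tab) (x : ℕ → Bool) : ℝ := ((τ.2 (fun i => x i) : ℚ) : ℝ)

/-- Index type of the clopen sets. -/
def Idx : Type := Σ n : ℕ, ((Fin n → Bool) → Bool)

instance : Countable Idx := inferInstanceAs (Countable (Σ n : ℕ, ((Fin n → Bool) → Bool)))

/-- The clopen sets (as `Bool`-valued functions). -/
def clo (S : Idx) (γ : Γ) : Bool := S.2 (fun i => γ i)

lemma measurable_clo (S : Idx) : Measurable (clo S) := by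
  have h1 : Measurable (S.2 : (Fin S.1 → Bool) → Bool) := measurable_of_finite _
  exact h1.comp (measurable_pi_lambda _ fun i => measurable_pi_apply _)

lemma clo_dense (a : Γ → Bool) (Δ : Finset Γ) : ∃ S : Idx, ∀ γ ∈ Δ, clo S γ = a γ := by
  classical
  have hex : ∀ γ γ' : Γ, ∃ i : ℕ, γ ≠ γ' → γ i ≠ γ' i := by
    intro γ γ'
    by_cases h : γ = γ'
    · exact ⟨0, fun h' => absurd h h'⟩
    · obtain ⟨i, hi⟩ := Function.ne_iff.mp h
      exact ⟨i, fun _ => hi⟩
  choose idx hidx using hex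
  set n : ℕ := (Δ ×ˢ Δ).sup (fun p => idx p.1 p.2) + 1 with hn
  refine ⟨⟨n, fun s => decide (∃ γ ∈ Δ, (fun i : Fin n => γ i) = s ∧ a γ = true)⟩, ?_⟩
  intro γ hγ
  have : clo ⟨n, fun s => decide (∃ γ ∈ Δ, (fun i : Fin n => γ i) = s ∧ a γ = true)⟩ γ =
      decide (∃ γ' ∈ Δ, (fun i : Fin n => γ' i) = (fun i : Fin n => γ i) ∧ a γ' = true) := rfl
  rw [this]
  cases hb : a γ
  · simp only [decide_eq_false_iff_not, not_exists, not_and]
    intro γ' hγ' heq ha
    have hne : γ' ≠ γ := by
      rintro rfl; rw [hb] at ha; exact absurd ha (by simp)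
    have h1 := hidx γ' γ hne
    have h2 : idx γ' γ < n := by
      rw [hn]
      have h3 := Finset.le_sup (f := fun p : Γ × Γ => idx p.1 p.2) (s := Δ ×ˢ Δ) (b := (γ', γ))
        (Finset.mem_product.mpr ⟨hγ', hγ⟩)
      exact Nat.lt_succ_of_le h3
    exact h1 (congrFun heq ⟨_, h2⟩)
  · simp only [decide_eq_true_eq]
    exact ⟨γ, hγ, rfl, hb⟩

lemma ev_dep (τ : Tab) : DependsOn (ev τ) (Finset.range τ.1 : Set ℕ) := by
  intro x y hxy
  unfold ev
  have : (fun i : Fin τ.1 => x i) = (fun i : Fin τ.1 => y i) := funext fun i => hxy i (by simp)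
  rw [this]

lemma ev_measurable (τ : Tab) : Measurable (ev τ) := DependsOn.measurable (ev_dep τ)

lemma ev_bdd (τ : Tab) : ∃ C, ∀ x, |ev τ x| ≤ C := DependsOn.bounded (ev_dep τ)

lemma ev_comp_dep (τ : Tab) (δ : ℕ → Γ) [DecidableEq Γ] :
    DependsOn (fun y : Γ → Bool => ev τ (fun i => y (δ i)))
      (((Finset.range τ.1).image δ : Finset Γ) : Set Γ) := by
  intro x y hxy
  apply ev_dep τ
  intro i hi
  apply hxy
  simp only [Finset.coe_image, mem_image]
  exact ⟨i, hi, rfl⟩

/-- Transfer between the small and the large product. -/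
lemma transfer {δ : ℕ → Γ} (hδ : Function.Injective δ) {F : (ℕ → Bool) → ℝ} (hF : Measurable F)
    (a : Γ → Bool) : ∫ x, F (meet (fun i => a (δ i)) x) ∂(P ℕ) =
      ∫ y, F (fun i => meet a y (δ i)) ∂(P Γ) :=
  integral_comp_inj (F := fun x => F (meet (fun i => a (δ i)) x)) hδ
    (hF.comp (measurable_meet _))

/-- `(δ, h)` represents a function with values `v` of the functionals. -/
structure Rep (δ : ℕ → Γ) (h : ℕ → Tab) (v : Idx → ℝ) : Prop where
  inj : Function.Injective δ
  cau : ∀ k (b : ℕ → Bool), ∫ x, |ev (h k) (meet b x) - ev (h (k + 1)) (meet b x)| ∂(P ℕ) ≤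
    (1 / 2 : ℝ) ^ k
  val : ∀ (S : Idx) k, |∫ x, ev (h k) (meet (fun i => clo S (δ i)) x) ∂(P ℕ) - v S| ≤
    2 * (1 / 2 : ℝ) ^ k

/-- The represented function is bounded by `r`. -/
def Small (h : ℕ → Tab) (r : ℝ) : Prop :=
  ∀ k (b : ℕ → Bool), ∫ x, max (|ev (h k) (meet b x)| - r) 0 ∂(P ℕ) ≤ 2 * (1 / 2 : ℝ) ^ k

lemma int1 {ι : Type*} {u : (ι → Bool) → ℝ} (hu : Measurable u) (hb : ∃ C, ∀ y, |u y| ≤ C)
    (a : ι → Bool) : Integrable (fun y => u (meet a y)) (P ι) := by
  apply integrable_of_bdd (hu.comp (measurable_meet a))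
  obtain ⟨C, hC⟩ := hb
  exact ⟨C, fun y => hC _⟩

lemma Rep.tele {δ : ℕ → Γ} {h : ℕ → Tab} {v : Idx → ℝ} (hR : Rep δ h v) (j k : ℕ) (hjk : j ≤ k)
    (b : ℕ → Bool) : ∫ x, |ev (h j) (meet b x) - ev (h k) (meet b x)| ∂(P ℕ) ≤
      2 * (1 / 2 : ℝ) ^ j - 2 * (1 / 2 : ℝ) ^ k := by
  have hi : ∀ k, Integrable (fun x => ev (h k) (meet b x)) (P ℕ) := fun k =>
    int1 (ev_measurable _) (ev_bdd _) b
  induction k, hjk using Nat.le_induction with
  | base => simp
  | succ k _ ih =>
    have h1 : ∫ x, |ev (h j) (meet b x) - ev (h (k + 1)) (meet b x)| ∂(P ℕ) ≤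
        ∫ x, (|ev (h j) (meet b x) - ev (h k) (meet b x)| +
          |ev (h k) (meet b x) - ev (h (k + 1)) (meet b x)|) ∂(P ℕ) := by
      apply integral_mono ((hi j).sub (hi (k + 1))).abs
        (((hi j).sub (hi k)).abs.add ((hi k).sub (hi (k + 1))).abs)
      intro x
      exact abs_sub_le _ _ _
    have j1 : Integrable (fun x => |ev (h j) (meet b x) - ev (h k) (meet b x)|) (P ℕ) :=
      ((hi j).sub (hi k)).abs
    have j2 : Integrable (fun x => |ev (h k) (meet b x) - ev (h (k + 1)) (meet b x)|) (P ℕ) :=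
      ((hi k).sub (hi (k + 1))).abs
    rw [integral_add j1 j2] at h1
    have h2 := hR.cau k b
    have h3 : (1 / 2 : ℝ) ^ (k + 1) = (1 / 2 : ℝ) ^ k / 2 := by rw [pow_succ]; ring
    rw [h3]
    linarith

lemma tendsto_half (c : ℝ) : Tendsto (fun k : ℕ => c * (1 / 2 : ℝ) ^ k) atTop (𝓝 0) := by
  have := (tendsto_pow_atTop_nhds_zero_of_lt_one (r := (1 / 2 : ℝ)) (by norm_num)
    (by norm_num)).const_mul c
  simpa using this

lemma rep_unique {δ δ' : ℕ → Γ} {h h' : ℕ → Tab} {v : Idx → ℝ} (hR : Rep δ h v)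
    (hR' : Rep δ' h' v) {r : ℝ} (hS : Small h r) : Small h' r := by
  classical
  set u : ℕ → (Γ → Bool) → ℝ := fun k y => ev (h k) (fun i => y (δ i)) - ev (h' k) (fun i => y (δ' i))
    with hu
  have hi : ∀ k (a : Γ → Bool), Integrable (fun y : Γ → Bool => ev (h k) (fun i => meet a y (δ i)))
      (P Γ) := fun k a => int1 (DependsOn.measurable (ev_comp_dep (h k) δ))
        (DependsOn.bounded (ev_comp_dep (h k) δ)) a
  have hi' : ∀ k (a : Γ → Bool), Integrable (fun y : Γ → Bool => ev (h' k) (fun i => meet a y (δ' i)))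
      (P Γ) := fun k a => int1 (DependsOn.measurable (ev_comp_dep (h' k) δ'))
        (DependsOn.bounded (ev_comp_dep (h' k) δ')) a
  have hdepu : ∀ k, DependsOn (u k) (((((Finset.range (h k).1).image δ) ∪
      ((Finset.range (h' k).1).image δ') : Finset Γ)) : Set Γ) := by
    intro k x y hxy
    have e1 := ev_comp_dep (h k) δ (x := x) (y := y)
      (fun i hi => hxy i (by rw [Finset.coe_union]; exact Or.inl hi))
    have e2 := ev_comp_dep (h' k) δ' (x := x) (y := y)
      (fun i hi => hxy i (by rw [Finset.coe_union]; exact Or.inr hi))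
    simp only [hu]
    simp only at e1 e2
    rw [e1, e2]
  have h1 : ∀ k a, |∫ y, u k (meet a y) ∂(P Γ)| ≤ 4 * (1 / 2 : ℝ) ^ k := by
    intro k a
    obtain ⟨S, hS⟩ := clo_dense a (((Finset.range (h k).1).image δ) ∪
      ((Finset.range (h' k).1).image δ'))
    have e0 : ∀ y, u k (meet a y) = u k (meet (clo S) y) := by
      intro y
      apply hdepu k
      intro i hi
      simp only [meet]
      rw [hS i hi]
    simp_rw [e0]
    have e1 : ∫ y, u k (meet (clo S) y) ∂(P Γ) =
        ∫ y, ev (h k) (fun i => meet (clo S) y (δ i)) ∂(P Γ) -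
        ∫ y, ev (h' k) (fun i => meet (clo S) y (δ' i)) ∂(P Γ) :=
      integral_sub (hi k (clo S)) (hi' k (clo S))
    rw [e1, ← transfer hR.inj (ev_measurable (h k)), ← transfer hR'.inj (ev_measurable (h' k))]
    have e2 := hR.val S k
    have e3 := hR'.val S k
    rw [abs_le] at e2 e3 ⊢
    constructor <;> linarith [e2.1, e2.2, e3.1, e3.2]
  have h2 : ∀ j k, j ≤ k → ∀ a, ∫ y, |u j (meet a y) - u k (meet a y)| ∂(P Γ) ≤
      4 * (1 / 2 : ℝ) ^ j := by
    intro j k hjk a
    have e1 : ∫ y, |u j (meet a y) - u k (meet a y)| ∂(P Γ) ≤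
        ∫ y, (|ev (h j) (fun i => meet a y (δ i)) - ev (h k) (fun i => meet a y (δ i))| +
          |ev (h' j) (fun i => meet a y (δ' i)) - ev (h' k) (fun i => meet a y (δ' i))|) ∂(P Γ) := by
      apply integral_mono (((hi j a).sub (hi' j a)).sub ((hi k a).sub (hi' k a))).abs
        (((hi j a).sub (hi k a)).abs.add ((hi' j a).sub (hi' k a)).abs)
      intro y
      simp only [hu]
      have : ∀ p q s t : ℝ, |p - q - (s - t)| ≤ |p - s| + |q - t| := by
        intro p q s t
        have : p - q - (s - t) = (p - s) - (q - t) := by ring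
        rw [this]
        exact abs_sub _ _
      exact this _ _ _ _
    have j1 : Integrable (fun y : Γ → Bool => |ev (h j) (fun i => meet a y (δ i)) -
        ev (h k) (fun i => meet a y (δ i))|) (P Γ) := ((hi j a).sub (hi k a)).abs
    have j2 : Integrable (fun y : Γ → Bool => |ev (h' j) (fun i => meet a y (δ' i)) -
        ev (h' k) (fun i => meet a y (δ' i))|) (P Γ) := ((hi' j a).sub (hi' k a)).abs
    rw [integral_add j1 j2] at e1
    have e2 := hR.tele j k hjk (fun i => a (δ i))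
    have e3 := hR'.tele j k hjk (fun i => a (δ' i))
    rw [transfer hR.inj (F := fun x => |ev (h j) x - ev (h k) x|)
      ((ev_measurable _).sub (ev_measurable _)).abs] at e2
    rw [transfer hR'.inj (F := fun x => |ev (h' j) x - ev (h' k) x|)
      ((ev_measurable _).sub (ev_measurable _)).abs] at e3
    have hk0 : (0:ℝ) ≤ (1 / 2 : ℝ) ^ k := by positivity
    linarith
  have h3 := totality (u := u) (fun k => ⟨_, hdepu k⟩) (tendsto_half 4) h1 h2
  intro k b
  -- extend b
  obtain ⟨a, ha⟩ : ∃ a : Γ → Bool, ∀ i, a (δ' i) = b i :=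
    ⟨Function.extend δ' b (fun _ => false), fun i => hR'.inj.extend_apply _ _ _⟩
  have hab : b = fun i => a (δ' i) := by ext i; rw [ha]
  have hmaxm : ∀ τ : Tab, Measurable (fun x => max (|ev τ x| - r) 0) := fun τ =>
    ((ev_measurable τ).abs.sub_const r).max measurable_const
  rw [hab, transfer hR'.inj (F := fun x => max (|ev (h' k) x| - r) 0) (hmaxm _)]
  have hle : ∀ l, k ≤ l → ∫ y, max (|ev (h' k) (fun i => meet a y (δ' i))| - r) 0 ∂(P Γ) ≤
      2 * (1 / 2 : ℝ) ^ k + 6 * (1 / 2 : ℝ) ^ l := by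
    intro l hkl
    have hpt : ∀ y : Γ → Bool, max (|ev (h' k) (fun i => meet a y (δ' i))| - r) 0 ≤
        |ev (h' k) (fun i => meet a y (δ' i)) - ev (h' l) (fun i => meet a y (δ' i))| +
        (|u l (meet a y)| + max (|ev (h l) (fun i => meet a y (δ i))| - r) 0) := by
      intro y
      simp only [hu]
      set p := ev (h' k) (fun i => meet a y (δ' i))
      set q := ev (h' l) (fun i => meet a y (δ' i))
      set s := ev (h l) (fun i => meet a y (δ i))
      have t1 : |p| ≤ |p - q| + |q| := by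
        have := abs_add_le (p - q) q; simpa using this
      have t2 : |q| ≤ |s - q| + |s| := by
        have := abs_sub s (s - q)
        have e : s - (s - q) = q := by ring
        rw [e] at this; linarith
      apply max_le
      · have := le_max_left (|s| - r) 0
        linarith
      · have := le_max_right (|s| - r) 0
        positivity
    have i1 : Integrable (fun y : Γ → Bool => max (|ev (h' k) (fun i => meet a y (δ' i))| - r) 0)
        (P Γ) := ((hi' k a).abs.sub (integrable_const r)).sup (integrable_const 0)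
    have i2 : Integrable (fun y : Γ → Bool => max (|ev (h l) (fun i => meet a y (δ i))| - r) 0)
        (P Γ) := ((hi l a).abs.sub (integrable_const r)).sup (integrable_const 0)
    have i3 : Integrable (fun y : Γ → Bool => |u l (meet a y)|) (P Γ) :=
      ((hi l a).sub (hi' l a)).abs
    have i4 : Integrable (fun y : Γ → Bool => |ev (h' k) (fun i => meet a y (δ' i)) -
        ev (h' l) (fun i => meet a y (δ' i))|) (P Γ) := ((hi' k a).sub (hi' l a)).abs
    have e1 := integral_mono i1 (i4.add (i3.add i2)) hpt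
    have e2 : ∫ y, (|ev (h' k) (fun i => meet a y (δ' i)) - ev (h' l) (fun i => meet a y (δ' i))| +
        (|u l (meet a y)| + max (|ev (h l) (fun i => meet a y (δ i))| - r) 0)) ∂(P Γ) =
        ∫ y, |ev (h' k) (fun i => meet a y (δ' i)) - ev (h' l) (fun i => meet a y (δ' i))| ∂(P Γ) +
        (∫ y, |u l (meet a y)| ∂(P Γ) +
          ∫ y, max (|ev (h l) (fun i => meet a y (δ i))| - r) 0 ∂(P Γ)) := by
      have i5 : Integrable (fun y : Γ → Bool => |u l (meet a y)| +
        max (|ev (h l) (fun i => meet a y (δ i))| - r) 0) (P Γ) := i3.add i2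
      rw [integral_add i4 i5, integral_add i3 i2]
    have e3 := hR'.tele k l hkl (fun i => a (δ' i))
    rw [transfer hR'.inj (F := fun x => |ev (h' k) x - ev (h' l) x|)
      ((ev_measurable _).sub (ev_measurable _)).abs] at e3
    have e4 := h3 l a
    have e5 := hS l (fun i => a (δ i))
    rw [transfer hR.inj (F := fun x => max (|ev (h l) x| - r) 0) (hmaxm _)] at e5
    have e1' : ∫ y, max (|ev (h' k) (fun i => meet a y (δ' i))| - r) 0 ∂(P Γ) ≤
      ∫ y, (|ev (h' k) (fun i => meet a y (δ' i)) - ev (h' l) (fun i => meet a y (δ' i))| +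
        (|u l (meet a y)| + max (|ev (h l) (fun i => meet a y (δ i))| - r) 0)) ∂(P Γ) := e1
    rw [e2] at e1'
    have hl0 : (0:ℝ) ≤ (1 / 2 : ℝ) ^ l := by positivity
    linarith
  have hlim : Tendsto (fun l : ℕ => 2 * (1 / 2 : ℝ) ^ k + 6 * (1 / 2 : ℝ) ^ l) atTop
      (𝓝 (2 * (1 / 2 : ℝ) ^ k + 0)) := (tendsto_half 6).const_add _
  rw [add_zero] at hlim
  exact ge_of_tendsto hlim (eventually_atTop.mpr ⟨k, hle⟩)

end Pool.Agent.Lib.MP_d5a392_an
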