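import Pool.Agent.Lib.MP_d5a392_an.Key

open MeasureTheory ProbabilityTheory Set Filter Topology
open scoped ENNReal

namespace Pool.Agent.Lib.MP_d5a392_an

/-- The parameter space. -/
abbrev Prm : Type := ((ℕ → Γ) × (ℕ → Tab)) × (Idx → ℝ)

lemma measurableSet_tab {s : Set (Tab × Tab)} : MeasurableSet s :=
  (Set.to_countable s).measurableSet

lemma measurable_J (S : Idx) : Measurable (fun p : (ℕ → Γ) × Tab =>
    ∫ x, ev p.2 (meet (fun i => clo S (p.1 i)) x) ∂(P ℕ)) := by
  apply measurable_from_prod_countable_left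
  intro τ
  simp only
  set J : (Fin τ.1 → Bool) → ℝ := fun s =>
    ∫ x, ev τ (meet (fun i => if h : i < τ.1 then s ⟨i, h⟩ else false) x) ∂(P ℕ) with hJ
  have h1 : (fun δ : ℕ → Γ => ∫ x, ev τ (meet (fun i => clo S (δ i)) x) ∂(P ℕ)) =
      fun δ : ℕ → Γ => J (fun i => clo S (δ i)) := by
    ext δ
    simp only [hJ]
    congr 1
    ext x
    apply ev_dep τ
    intro i hi
    simp only [Finset.coe_range, mem_Iio] at hi
    simp [meet, hi]
  rw [h1]
  have h2 : Measurable J := measurable_of_finite _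
  have h3 : Measurable (fun δ : ℕ → Γ => (fun i : Fin τ.1 => clo S (δ i))) :=
    measurable_pi_lambda _ fun i => (measurable_clo S).comp (measurable_pi_apply _)
  exact h2.comp h3

lemma measurableSet_inj : MeasurableSet {δ : ℕ → Γ | Function.Injective δ} := by
  have : {δ : ℕ → Γ | Function.Injective δ} = ⋂ i, ⋂ j, {δ : ℕ → Γ | δ i = δ j → i = j} := by
    ext δ; simp [Function.Injective]
  rw [this]
  apply MeasurableSet.iInter
  intro i
  apply MeasurableSet.iInter
  intro j
  by_cases hij : i = j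
  · have : {δ : ℕ → Γ | δ i = δ j → i = j} = univ := by ext; simp [hij]
    rw [this]; exact MeasurableSet.univ
  · have : {δ : ℕ → Γ | δ i = δ j → i = j} = {δ : ℕ → Γ | δ i = δ j}ᶜ := by ext; simp [hij]
    rw [this]
    exact (measurableSet_eq_fun (measurable_pi_apply i) (measurable_pi_apply j)).compl

lemma measurableSet_rep : MeasurableSet {p : Prm | Rep p.1.1 p.1.2 p.2} := by
  have : {p : Prm | Rep p.1.1 p.1.2 p.2} =
      ({p : Prm | Function.Injective p.1.1} ∩
      ⋂ k, {p : Prm | (p.1.2 k, p.1.2 (k + 1)) ∈ {q : Tab × Tab | ∀ b : ℕ → Bool,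
        ∫ x, |ev q.1 (meet b x) - ev q.2 (meet b x)| ∂(P ℕ) ≤ (1 / 2 : ℝ) ^ k}}) ∩
      ⋂ (S : Idx), ⋂ k, {p : Prm | |(∫ x, ev (p.1.2 k) (meet (fun i => clo S (p.1.1 i)) x) ∂(P ℕ)) -
        p.2 S| ≤ 2 * (1 / 2 : ℝ) ^ k} := by
    ext p
    simp only [mem_inter_iff, mem_iInter]
    constructor
    · intro h
      exact ⟨⟨h.inj, fun k b => h.cau k b⟩, fun S k => h.val S k⟩
    · intro h
      exact ⟨h.1.1, fun k b => h.1.2 k b, fun S k => h.2 S k⟩
  rw [this]
  refine MeasurableSet.inter (MeasurableSet.inter ?_ ?_) ?_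
  · exact measurableSet_inj.preimage (measurable_fst.comp measurable_fst)
  · apply MeasurableSet.iInter
    intro k
    have hm : Measurable (fun p : Prm => (p.1.2 k, p.1.2 (k + 1))) :=
      ((measurable_pi_apply k).comp (measurable_snd.comp measurable_fst)).prodMk
        ((measurable_pi_apply (k + 1)).comp (measurable_snd.comp measurable_fst))
    exact hm measurableSet_tab
  · apply MeasurableSet.iInter
    intro S
    apply MeasurableSet.iInter
    intro k
    have hm : Measurable (fun p : Prm =>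
        ∫ x, ev (p.1.2 k) (meet (fun i => clo S (p.1.1 i)) x) ∂(P ℕ)) :=
      (measurable_J S).comp ((measurable_fst.comp measurable_fst).prodMk
        ((measurable_pi_apply k).comp (measurable_snd.comp measurable_fst)))
    have hm2 : Measurable (fun p : Prm => p.2 S) := (measurable_pi_apply S).comp measurable_snd
    exact measurableSet_le (hm.sub hm2).abs measurable_const

lemma measurableSet_small (r : ℝ) : MeasurableSet {p : Prm | Small p.1.2 r} := by
  have : {p : Prm | Small p.1.2 r} =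
      ⋂ k, {p : Prm | p.1.2 k ∈ {τ : Tab | ∀ b : ℕ → Bool,
        ∫ x, max (|ev τ (meet b x)| - r) 0 ∂(P ℕ) ≤ 2 * (1 / 2 : ℝ) ^ k}} := by
    ext p
    simp only [mem_iInter]
    rfl
  rw [this]
  apply MeasurableSet.iInter
  intro k
  have hm : Measurable (fun p : Prm => p.1.2 k) :=
    (measurable_pi_apply k).comp (measurable_snd.comp measurable_fst)
  exact hm (MeasurableSpace.measurableSet_top)

/-- The functions that are uniformly approximable by functions of finitely many coordinates. -/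
def Nice (f : (Γ → Bool) → ℝ) : Prop :=
  Measurable f ∧ (∃ C, ∀ y, |f y| ≤ C) ∧ ∀ ε > 0, ∃ u : (Γ → Bool) → ℝ,
    (∃ Δ : Finset Γ, DependsOn u (Δ : Set Γ)) ∧
      ∀ a, ∫ y, |u (meet a y) - f (meet a y)| ∂(P Γ) ≤ ε

/-- The countably many functionals. -/
noncomputable def Phi (f : (Γ → Bool) → ℝ) (S : Idx) : ℝ := ∫ y, f (meet (clo S) y) ∂(P Γ)

/-- A function of finitely many coordinates is approximated by a rational table. -/
lemma exists_tab {u : (Γ → Bool) → ℝ} {Δ : Finset Γ} (hu : DependsOn u (Δ : Set Γ)) {δ : ℕ → Γ}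
    (hδ : Function.Injective δ) (hΔ : ∀ γ ∈ Δ, γ ∈ range δ) {ε : ℝ} (hε : 0 < ε) :
    ∃ τ : Tab, ∀ y, |ev τ (fun i => y (δ i)) - u y| ≤ ε := by
  classical
  have hN : ∃ n : ℕ, ∀ γ ∈ Δ, ∃ i < n, δ i = γ := by
    have : ∀ γ : Γ, ∃ i : ℕ, γ ∈ Δ → δ i = γ := by
      intro γ
      by_cases h : γ ∈ Δ
      · obtain ⟨i, hi⟩ := hΔ γ h
        exact ⟨i, fun _ => hi⟩
      · exact ⟨0, fun h' => absurd h' h⟩
    choose idx hidx using this
    refine ⟨Δ.sup idx + 1, fun γ hγ => ⟨idx γ, Nat.lt_succ_of_le (Finset.le_sup hγ), hidx γ hγ⟩⟩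
  obtain ⟨n, hn⟩ := hN
  set ext : (Fin n → Bool) → (Γ → Bool) := fun s =>
    Function.extend (fun i : Fin n => δ i) s (fun _ => false) with hext
  have hinj : Function.Injective (fun i : Fin n => δ i) := fun i j hij =>
    Fin.ext (hδ hij)
  have hq : ∀ s : Fin n → Bool, ∃ q : ℚ, |(q : ℝ) - u (ext s)| ≤ ε := by
    intro s
    obtain ⟨q, h1, h2⟩ := exists_rat_btwn (show u (ext s) - ε < u (ext s) by linarith)
    exact ⟨q, by rw [abs_le]; constructor <;> linarith⟩
  choose t ht using hq
  refine ⟨⟨n, t⟩, fun y => ?_⟩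
  have h1 : ev ⟨n, t⟩ (fun i => y (δ i)) = (t (fun i : Fin n => y (δ i)) : ℝ) := rfl
  have h2 : u (ext (fun i : Fin n => y (δ i))) = u y := by
    apply hu
    intro γ hγ
    obtain ⟨i, hi, rfl⟩ := hn γ hγ
    have := hinj.extend_apply (fun i : Fin n => y (δ i)) (fun _ => false) ⟨i, hi⟩
    exact this
  rw [h1, ← h2]
  exact ht _

lemma exists_rep {f : (Γ → Bool) → ℝ} (hf : Nice f) : ∃ (δ : ℕ → Γ) (h : ℕ → Tab),
    Rep δ h (Phi f) ∧ ∀ r, (Small h r ↔ ∀ a, ∀ᵐ y ∂(P Γ), |f (meet a y)| ≤ r) := by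
  classical
  obtain ⟨hfm, hfb, happ⟩ := hf
  choose u hu huapp using fun k : ℕ => happ ((1 / 2 : ℝ) ^ k / 4) (by positivity)
  choose Δ hΔ using hu
  -- an injective enumeration
  obtain ⟨δ, hδ, hδr⟩ : ∃ δ : ℕ → Γ, Function.Injective δ ∧ ∀ k, ∀ γ ∈ Δ k, γ ∈ range δ := by
    have hinf : Infinite Γ := inferInstance
    set A : Set Γ := (⋃ k, (Δ k : Set Γ)) ∪ range (Infinite.natEmbedding Γ) with hA
    have hAc : A.Countable :=
      (countable_iUnion fun k => (Δ k).countable_toSet).union (countable_range _)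
    have hAi : A.Infinite :=
      (infinite_range_of_injective (Infinite.natEmbedding Γ).injective).mono subset_union_right
    have : Countable A := hAc.to_subtype
    have : Infinite A := hAi.to_subtype
    obtain ⟨e⟩ : Nonempty (A ≃ ℕ) := nonempty_equiv_of_countable
    refine ⟨fun n => (e.symm n : Γ), Subtype.val_injective.comp e.symm.injective, ?_⟩
    intro k γ hγ
    refine ⟨e ⟨γ, ?_⟩, by simp⟩
    exact Or.inl (mem_iUnion.mpr ⟨k, hγ⟩)
  choose h hh using fun k : ℕ => exists_tab (hΔ k) hδ (hδr k)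
    (ε := (1 / 2 : ℝ) ^ k / 4) (by positivity)
  -- basic integrability
  have hif : ∀ a, Integrable (fun y => f (meet a y)) (P Γ) := fun a => int1 hfm hfb a
  have hiu : ∀ k a, Integrable (fun y => u k (meet a y)) (P Γ) := fun k a =>
    int1 (DependsOn.measurable (hΔ k)) (DependsOn.bounded (hΔ k)) a
  have hie : ∀ k a, Integrable (fun y : Γ → Bool => ev (h k) (fun i => meet a y (δ i))) (P Γ) :=
    fun k a => int1 (DependsOn.measurable (ev_comp_dep (h k) δ))
        (DependsOn.bounded (ev_comp_dep (h k) δ)) a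
  have hief : ∀ k a, Integrable (fun y : Γ → Bool =>
      |ev (h k) (fun i => meet a y (δ i)) - f (meet a y)|) (P Γ) := fun k a =>
    ((hie k a).sub (hif a)).abs
  have happ2 : ∀ k a, ∫ y, |ev (h k) (fun i => meet a y (δ i)) - f (meet a y)| ∂(P Γ) ≤
      (1 / 2 : ℝ) ^ k / 2 := by
    intro k a
    have j1 : Integrable (fun y : Γ → Bool => |u k (meet a y) - f (meet a y)|) (P Γ) :=
      ((hiu k a).sub (hif a)).abs
    have e1 : ∫ y, |ev (h k) (fun i => meet a y (δ i)) - f (meet a y)| ∂(P Γ) ≤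
        ∫ y, ((1 / 2 : ℝ) ^ k / 4 + |u k (meet a y) - f (meet a y)|) ∂(P Γ) := by
      apply integral_mono (hief k a) ((integrable_const _).add j1)
      intro y
      have := hh k (meet a y)
      calc |ev (h k) (fun i => meet a y (δ i)) - f (meet a y)|
          ≤ |ev (h k) (fun i => meet a y (δ i)) - u k (meet a y)| + |u k (meet a y) - f (meet a y)| :=
            abs_sub_le _ _ _
        _ ≤ (1 / 2 : ℝ) ^ k / 4 + |u k (meet a y) - f (meet a y)| := by
          linarith
    rw [integral_add (integrable_const _) j1, integral_const] at e1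
    simp only [probReal_univ, smul_eq_mul, one_mul] at e1
    have := huapp k a
    linarith
  have hR : Rep δ h (Phi f) := by
    refine ⟨hδ, ?_, ?_⟩
    · intro k b
      obtain ⟨a, ha⟩ : ∃ a : Γ → Bool, ∀ i, a (δ i) = b i :=
        ⟨Function.extend δ b (fun _ => false), fun i => hδ.extend_apply _ _ _⟩
      have hab : b = fun i => a (δ i) := by ext i; rw [ha]
      rw [hab, transfer hδ (F := fun x => |ev (h k) x - ev (h (k + 1)) x|)
        ((ev_measurable _).sub (ev_measurable _)).abs]
      have e1 : ∫ y, |ev (h k) (fun i => meet a y (δ i)) - ev (h (k + 1)) (fun i => meet a y (δ i))|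
          ∂(P Γ) ≤ ∫ y, (|ev (h k) (fun i => meet a y (δ i)) - f (meet a y)| +
            |ev (h (k + 1)) (fun i => meet a y (δ i)) - f (meet a y)|) ∂(P Γ) := by
        apply integral_mono ((hie k a).sub (hie (k + 1) a)).abs ((hief k a).add (hief (k + 1) a))
        intro y
        have := abs_sub_le (ev (h k) (fun i => meet a y (δ i))) (f (meet a y))
          (ev (h (k + 1)) (fun i => meet a y (δ i)))
        rw [abs_sub_comm (f (meet a y))] at this
        exact this
      rw [integral_add (hief k a) (hief (k + 1) a)] at e1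
      have e2 := happ2 k a
      have e3 := happ2 (k + 1) a
      have e4 : (1 / 2 : ℝ) ^ (k + 1) = (1 / 2 : ℝ) ^ k / 2 := by rw [pow_succ]; ring
      rw [e4] at e3
      have e5 : (0:ℝ) ≤ (1 / 2 : ℝ) ^ k := by positivity
      linarith
    · intro S k
      rw [transfer hδ (ev_measurable (h k)), Phi, ← integral_sub (hie k _) (hif _)]
      have e1 := abs_integral_le_integral_abs (μ := P Γ)
        (f := fun y => ev (h k) (fun i => meet (clo S) y (δ i)) - f (meet (clo S) y))
      have e2 := happ2 k (clo S)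
      have e5 : (0:ℝ) ≤ (1 / 2 : ℝ) ^ k := by positivity
      linarith
  refine ⟨δ, h, hR, fun r => ?_⟩
  have hmaxm : ∀ τ : Tab, Measurable (fun x => max (|ev τ x| - r) 0) := fun τ =>
    ((ev_measurable τ).abs.sub_const r).max measurable_const
  have i1 : ∀ k a, Integrable (fun y : Γ → Bool =>
      max (|ev (h k) (fun i => meet a y (δ i))| - r) 0) (P Γ) := fun k a =>
    ((hie k a).abs.sub (integrable_const r)).sup (integrable_const 0)
  have i2 : ∀ a, Integrable (fun y : Γ → Bool => max (|f (meet a y)| - r) 0) (P Γ) := fun a =>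
    ((hif a).abs.sub (integrable_const r)).sup (integrable_const 0)
  constructor
  · intro hS a
    have hle : ∀ k : ℕ, ∫ y, max (|f (meet a y)| - r) 0 ∂(P Γ) ≤ 3 * (1 / 2 : ℝ) ^ k := by
      intro k
      have e1 : ∫ y, max (|f (meet a y)| - r) 0 ∂(P Γ) ≤
          ∫ y, (|ev (h k) (fun i => meet a y (δ i)) - f (meet a y)| +
            max (|ev (h k) (fun i => meet a y (δ i))| - r) 0) ∂(P Γ) := by
        apply integral_mono (i2 a) ((hief k a).add (i1 k a))
        intro y
        simp only [Pi.add_apply]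
        set p := ev (h k) (fun i => meet a y (δ i))
        set q := f (meet a y)
        have t1 : |q| ≤ |p - q| + |p| := by
          have := abs_sub p (p - q)
          have e : p - (p - q) = q := by ring
          rw [e] at this; linarith
        apply max_le
        · have := le_max_left (|p| - r) 0
          linarith
        · have := le_max_right (|p| - r) 0
          positivity
      rw [integral_add (hief k a) (i1 k a)] at e1
      have e2 := happ2 k a
      have e3 := hS k (fun i => a (δ i))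
      rw [transfer hδ (F := fun x => max (|ev (h k) x| - r) 0) (hmaxm _)] at e3
      have e5 : (0:ℝ) ≤ (1 / 2 : ℝ) ^ k := by positivity
      linarith
    have h0 : ∫ y, max (|f (meet a y)| - r) 0 ∂(P Γ) ≤ 0 :=
      ge_of_tendsto' (tendsto_half 3) hle
    have h1 : ∫ y, max (|f (meet a y)| - r) 0 ∂(P Γ) = 0 :=
      le_antisymm h0 (integral_nonneg fun y => le_max_right _ _)
    rw [integral_eq_zero_iff_of_nonneg (f := fun y => max (|f (meet a y)| - r) 0)
      (fun y => le_max_right _ _) (i2 a)] at h1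
    filter_upwards [h1] with y hy
    have := le_max_left (|f (meet a y)| - r) 0
    simp only [Pi.zero_apply] at hy
    rw [hy] at this
    linarith
  · intro hA k b
    obtain ⟨a, ha⟩ : ∃ a : Γ → Bool, ∀ i, a (δ i) = b i :=
      ⟨Function.extend δ b (fun _ => false), fun i => hδ.extend_apply _ _ _⟩
    have hab : b = fun i => a (δ i) := by ext i; rw [ha]
    rw [hab, transfer hδ (F := fun x => max (|ev (h k) x| - r) 0) (hmaxm _)]
    have e1 : ∫ y, max (|ev (h k) (fun i => meet a y (δ i))| - r) 0 ∂(P Γ) ≤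
        ∫ y, |ev (h k) (fun i => meet a y (δ i)) - f (meet a y)| ∂(P Γ) := by
      apply integral_mono_ae (i1 k a) (hief k a)
      filter_upwards [hA a] with y hy
      set p := ev (h k) (fun i => meet a y (δ i))
      set q := f (meet a y)
      have t1 : |p| ≤ |p - q| + |q| := by
        have := abs_add_le (p - q) q; simpa using this
      apply max_le
      · linarith
      · positivity
    have e2 := happ2 k a
    have e5 : (0:ℝ) ≤ (1 / 2 : ℝ) ^ k := by positivity
    linarith

/-- The key measurability statement: boundedness by `r` is a Borel condition on the values of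
countably many functionals. -/
theorem key (r : ℝ) : ∃ D : Set (Idx → ℝ), MeasurableSet D ∧ ∀ f, Nice f →
    (Phi f ∈ D ↔ ∀ a, ∀ᵐ y ∂(P Γ), |f (meet a y)| ≤ r) := by
  set M1 : Set Prm := {p | Rep p.1.1 p.1.2 p.2} ∩ {p | Small p.1.2 r} with hM1
  set M2 : Set Prm := {p | Rep p.1.1 p.1.2 p.2} ∩ {p | Small p.1.2 r}ᶜ with hM2
  have hm1 : MeasurableSet M1 := measurableSet_rep.inter (measurableSet_small r)
  have hm2 : MeasurableSet M2 := measurableSet_rep.inter (measurableSet_small r).compl
  have ha1 : AnalyticSet (Prod.snd '' M1 : Set (Idx → ℝ)) := hm1.analyticSet_image measurable_snd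
  have ha2 : AnalyticSet (Prod.snd '' M2 : Set (Idx → ℝ)) := hm2.analyticSet_image measurable_snd
  have hdisj : Disjoint (Prod.snd '' M1 : Set (Idx → ℝ)) (Prod.snd '' M2) := by
    rw [Set.disjoint_left]
    rintro v ⟨p, ⟨hp1, hp2⟩, rfl⟩ ⟨q, ⟨hq1, hq2⟩, hqv⟩
    apply hq2
    have hq1' : Rep q.1.1 q.1.2 q.2 := hq1
    rw [hqv] at hq1'
    exact rep_unique (hp1 : Rep p.1.1 p.1.2 p.2) hq1' hp2
  obtain ⟨D, hD1, hD2, hD3⟩ := ha1.measurablySeparable ha2 hdisj
  refine ⟨D, hD3, fun f hf => ?_⟩
  obtain ⟨δ, h, hR, hr⟩ := exists_rep hf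
  rw [← hr r]
  constructor
  · intro hfD
    by_contra hcon
    exact Set.disjoint_left.mp hD2 ⟨((δ, h), Phi f), ⟨hR, hcon⟩, rfl⟩ hfD
  · intro hS
    exact hD1 ⟨((δ, h), Phi f), ⟨hR, hS⟩, rfl⟩

end Pool.Agent.Lib.MP_d5a392_an
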