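import Pool.Agent.Lib.MP_d5a392_an.Nonsep

open MeasureTheory ProbabilityTheory Set Filter Topology
open scoped ENNReal

namespace Pool.Agent.Lib.MP_d5a392_an

/-- The Baire `σ`-algebra of a real normed space with its weak topology: the smallest `σ`-algebra
for which every weakly continuous real function is measurable. -/
@[reducible] noncomputable def weakBaire (X : Type*) [NormedAddCommGroup X] [NormedSpace ℝ X] : MeasurableSpace X :=
  ⨆ f : {f : WeakSpace ℝ X → ℝ // Continuous f},
    MeasurableSpace.comap (fun x : X => f.1 (toWeakSpace ℝ X x)) (borel ℝ)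

lemma measurable_functional {X : Type*} [NormedAddCommGroup X] [NormedSpace ℝ X]
    (φ : X →L[ℝ] ℝ) : @Measurable X ℝ (weakBaire X) (borel ℝ) φ := by
  have hc : Continuous (fun x : WeakSpace ℝ X => φ ((toWeakSpace ℝ X).symm x)) :=
    WeakBilin.eval_continuous (topDualPairing ℝ X).flip φ
  rw [measurable_iff_comap_le]
  exact le_iSup_of_le (f := fun f : {f : WeakSpace ℝ X → ℝ // Continuous f} =>
    MeasurableSpace.comap (fun x : X => f.1 (toWeakSpace ℝ X x)) (borel ℝ)) ⟨_, hc⟩ le_rfl

variable (c : Γ → ℕ → ℕ → Γ)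

/-- The functionals. -/
noncomputable def PhiL (S : Idx) : C(L c, ℝ) →L[ℝ] ℝ :=
  LinearMap.mkContinuous
    { toFun := fun g => Phi (fun y => g (E c y)) S
      map_add' := by
        intro g h
        simp only [Phi, ContinuousMap.add_apply]
        rw [integral_add]
        · exact int1 (measurable_gE c g) ⟨‖g‖, fun y => g.norm_coe_le_norm _⟩ _
        · exact int1 (measurable_gE c h) ⟨‖h‖, fun y => h.norm_coe_le_norm _⟩ _
      map_smul' := by
        intro r g
        simp only [Phi, ContinuousMap.smul_apply]
        rw [integral_smul]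
        rfl } 1 (by
    intro g
    simp only [Phi, LinearMap.coe_mk, AddHom.coe_mk]
    have h := norm_integral_le_of_norm_le_const (μ := P Γ)
      (f := fun y => g (E c (meet (clo S) y))) (C := ‖g‖)
      (Eventually.of_forall fun y => g.norm_coe_le_norm _)
    simpa using h)

lemma PhiL_apply (S : Idx) (g : C(L c, ℝ)) : PhiL c S g = Phi (fun y => g (E c y)) S := rfl

theorem measurable_norm_C : @Measurable C(L c, ℝ) ℝ (weakBaire C(L c, ℝ)) (borel ℝ)
    (fun g : C(L c, ℝ) => ‖g‖) := by
  have hb : (borel ℝ) = (inferInstance : MeasurableSpace ℝ) := (BorelSpace.measurable_eq).symm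
  rw [hb]
  let _ : MeasurableSpace C(L c, ℝ) := weakBaire C(L c, ℝ)
  apply measurable_of_Iic
  intro r
  by_cases hr : 0 ≤ r
  · obtain ⟨D, hD1, hD2⟩ := key r
    have h1 : (fun g : C(L c, ℝ) => ‖g‖) ⁻¹' Iic r =
        (fun g : C(L c, ℝ) => (fun S => PhiL c S g)) ⁻¹' D := by
      ext g
      rw [mem_preimage, mem_Iic, norm_le_iff c g hr, mem_preimage]
      have h2 := hD2 _ (nice_gE c g)
      rw [← h2]
      rfl
    rw [h1]
    have h3 : Measurable (fun g : C(L c, ℝ) => (fun S => PhiL c S g)) := by
      apply measurable_pi_lambda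
      intro S
      have := measurable_functional (PhiL c S)
      rw [hb] at this
      exact this
    exact h3 hD1
  · have h1 : (fun g : C(L c, ℝ) => ‖g‖) ⁻¹' Iic r = ∅ := by
      ext g
      simp only [mem_preimage, mem_Iic, mem_empty_iff_false, iff_false]
      intro h
      exact hr ((norm_nonneg g).trans h)
    rw [h1]
    exact MeasurableSet.empty

end Pool.Agent.Lib.MP_d5a392_an
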