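import Pool.Agent.Lib.MP_d5a392_an.Space

open MeasureTheory ProbabilityTheory Set Filter Topology
open scoped ENNReal

namespace Pool.Agent.Lib.MP_d5a392_an

/-- The coding map: `α` codes a double sequence of elements of `Γ` by its even coordinates. -/
def cod (α : Γ) (n i : ℕ) : Γ := fun k => α (2 * Nat.pair (Nat.pair n i) k)

lemma uncountable_Γ : Uncountable Γ := by
  rw [← Cardinal.aleph0_lt_mk_iff]
  have : Cardinal.mk Γ = 2 ^ Cardinal.aleph0.{0} := by simp
  rw [this]
  exact Cardinal.cantor _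

lemma exists_cod (b : ℕ → ℕ → Γ) {Z : Set Γ} (hZ : Z.Countable) : ∃ α, α ∉ Z ∧ cod α = b := by
  by_contra hcon
  push Not at hcon
  set f : Γ → Γ := fun s m => if m % 2 = 0 then
    b (Nat.unpair (Nat.unpair (m / 2)).1).1 (Nat.unpair (Nat.unpair (m / 2)).1).2
      (Nat.unpair (m / 2)).2 else s (m / 2) with hf
  have h1 : ∀ s, cod (f s) = b := by
    intro s
    ext n i k
    have e1 : 2 * Nat.pair (Nat.pair n i) k % 2 = 0 := by omega
    have e2 : 2 * Nat.pair (Nat.pair n i) k / 2 = Nat.pair (Nat.pair n i) k := by omega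
    simp only [cod, hf, e1, e2, if_true, Nat.unpair_pair]
  have h2 : ∀ s, f s ∈ Z := by
    intro s
    by_contra h
    exact hcon _ h (h1 s)
  have h3 : Function.Injective f := by
    intro s t hst
    ext m
    have := congrFun hst (2 * m + 1)
    have e1 : ¬ (2 * m + 1) % 2 = 0 := by omega
    have e2 : (2 * m + 1) / 2 = m := by omega
    simp only [hf, e1, e2, if_false] at this
    rw [this]
  have h4 : (range f).Countable := hZ.mono (range_subset_iff.mpr h2)
  have h5 : (univ : Set Γ).Countable := by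
    have := h4.preimage_of_injOn (f := f) (h3.injOn)
    simpa using this
  exact not_countable_univ_iff.mpr uncountable_Γ h5

variable (c : Γ → ℕ → ℕ → Γ)

/-- The basic functions. -/
noncomputable def gf (α : Γ) : C(L c, ℝ) where
  toFun p := if p.1 α = (true, true) then 1 else 0
  continuous_toFun := by
    have h1 : Continuous (fun p : L c => p.1 α) :=
      (continuous_apply α).comp continuous_subtype_val
    exact (continuous_of_discreteTopology
      (f := fun b : Bool × Bool => if b = (true, true) then (1:ℝ) else 0)).comp h1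

lemma gf_apply (α : Γ) (p : L c) : gf c α p = if p.1 α = (true, true) then 1 else 0 := rfl

/-- A point where the basic function is `1`. -/
lemma exists_point (α : Γ) : ∃ p : L c, gf c α p = 1 := by
  classical
  refine ⟨E c (fun γ => decide (γ = α)), ?_⟩
  rw [gf_apply, if_pos]
  simp only [E, e]
  rw [Prod.mk.injEq]
  refine ⟨by simp, ?_⟩
  rw [decide_eq_true_iff]
  intro n hn
  have h1 : 3 * (n + 1) < ((Finset.range (4 * (n + 1))).filter
      (fun i => decide (c α n i = α) = true)).card := hn.2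
  have h2 : ((Finset.range (4 * (n + 1))).filter
      (fun i => decide (c α n i = α) = true)).card ≤ 1 := by
    rw [Finset.card_le_one]
    intro i hi j hj
    simp only [Finset.mem_filter, Finset.mem_range, decide_eq_true_eq] at hi hj
    exact hn.1 hi.1 hj.1 (hi.2.trans hj.2.symm)
  omega

lemma sum_le {α : Γ} {n : ℕ} (hinj : Set.InjOn (c α n) (Set.Iio (4 * (n + 1)))) (p : L c) :
    ∑ i ∈ Finset.range (4 * (n + 1)), gf c (c α n i) p * gf c α p ≤ 3 * ((n : ℝ) + 1) := by
  classical
  have hcl : IsClosed {p : L c | ∑ i ∈ Finset.range (4 * (n + 1)),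
      gf c (c α n i) p * gf c α p ≤ 3 * ((n : ℝ) + 1)} := by
    apply isClosed_le _ continuous_const
    fun_prop
  have hdense : DenseRange (E c) := by
    intro p
    rw [closure_subtype]
    have : (Subtype.val '' range (E c) : Set (Γ → Bool × Bool)) = range (e c) := by
      rw [← range_comp]; rfl
    rw [this]
    exact p.2
  refine hdense.induction_on (p := fun p => ∑ i ∈ Finset.range (4 * (n + 1)),
      gf c (c α n i) p * gf c α p ≤ 3 * ((n : ℝ) + 1)) p hcl (fun y => ?_)
  by_cases hy : gf c α (E c y) = 0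
  · simp only [hy, mul_zero, Finset.sum_const_zero]
    positivity
  · have h1 : (E c y).1 α = (true, true) := by
      by_contra h
      apply hy
      rw [gf_apply, if_neg h]
    have h2 : y ∈ R c α := by
      simp only [E, e] at h1
      rw [Prod.mk.injEq] at h1
      simpa using h1.2
    have h3 := h2 n
    have h4 : ((Finset.range (4 * (n + 1))).filter (fun i => y (c α n i) = true)).card
        ≤ 3 * (n + 1) := by
      by_contra hcon
      exact h3 ⟨hinj, not_le.mp hcon⟩
    have h5 : gf c α (E c y) = 1 := by rw [gf_apply, if_pos h1]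
    simp only [h5, mul_one]
    calc ∑ i ∈ Finset.range (4 * (n + 1)), gf c (c α n i) (E c y)
        ≤ ∑ i ∈ Finset.range (4 * (n + 1)), (if y (c α n i) = true then (1:ℝ) else 0) := by
          apply Finset.sum_le_sum
          intro i _
          rw [gf_apply]
          split_ifs with ha hb hb
          · exact le_rfl
          · exfalso
            apply hb
            simp only [E, e] at ha
            rw [Prod.mk.injEq] at ha
            exact ha.1
          · norm_num
          · exact le_rfl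
      _ = (((Finset.range (4 * (n + 1))).filter (fun i => y (c α n i) = true)).card : ℝ) := by
          rw [Finset.sum_boole]
      _ ≤ 3 * ((n : ℝ) + 1) := by exact_mod_cast h4

lemma norm_union_le (α β : Γ) : ‖gf c β + gf c α - gf c β * gf c α‖ ≤ 1 := by
  rw [ContinuousMap.norm_le _ (by norm_num)]
  intro p
  simp only [ContinuousMap.sub_apply, ContinuousMap.add_apply, ContinuousMap.mul_apply, gf_apply]
  split_ifs <;> simp

/-- The unit ball of the dual, as a subset of the dual with its weak* topology. -/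
def dualBall (X : Type*) [NormedAddCommGroup X] [NormedSpace ℝ X] : Set (WeakDual ℝ X) :=
  {φ | ‖WeakDual.toStrongDual φ‖ ≤ 1}

lemma apply_le {φ : WeakDual ℝ C(L c, ℝ)} (hφ : φ ∈ dualBall C(L c, ℝ)) {g : C(L c, ℝ)} {r : ℝ}
    (hg : ‖g‖ ≤ r) : φ g ≤ r := by
  have h1 := (WeakDual.toStrongDual φ).le_opNorm g
  have h2 : (WeakDual.toStrongDual φ) g = φ g := rfl
  rw [h2] at h1
  have h3 : ‖WeakDual.toStrongDual φ‖ ≤ 1 := hφ
  have h4 : φ g ≤ ‖φ g‖ := Real.le_norm_self _
  have h5 : ‖WeakDual.toStrongDual φ‖ * ‖g‖ ≤ 1 * ‖g‖ := by gcongr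
  linarith

/-- Non-separability of the dual ball. -/
theorem nonsep : ¬ ∃ D : Set (WeakDual ℝ C(L cod, ℝ)), D.Countable ∧
    D ⊆ dualBall C(L cod, ℝ) ∧ dualBall C(L cod, ℝ) ⊆ closure D := by
  classical
  rintro ⟨D, hDc, hDb, hDd⟩
  -- every basic function is normed by `D`
  have hnorm : ∀ α, ∃ φ ∈ D, 7 / 8 < φ (gf cod α) := by
    intro α
    obtain ⟨p, hp⟩ := exists_point cod α
    set ev0 : C(L cod, ℝ) →L[ℝ] ℝ := ContinuousMap.evalCLM ℝ p with hev0
    have hev : StrongDual.toWeakDual ev0 ∈ dualBall C(L cod, ℝ) := by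
      change ‖ev0‖ ≤ 1
      apply ContinuousLinearMap.opNorm_le_bound _ (by norm_num)
      intro g
      rw [one_mul]
      exact g.norm_coe_le_norm p
    have hcl := hDd hev
    have hopen : IsOpen {φ : WeakDual ℝ C(L cod, ℝ) | 7 / 8 < φ (gf cod α)} :=
      isOpen_lt continuous_const (WeakDual.eval_continuous _)
    have hmem : StrongDual.toWeakDual ev0 ∈
        {φ : WeakDual ℝ C(L cod, ℝ) | 7 / 8 < φ (gf cod α)} := by
      change 7 / 8 < gf cod α p
      rw [hp]; norm_num
    obtain ⟨φ, h1, h2⟩ := mem_closure_iff.mp hcl _ hopen hmem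
    exact ⟨φ, h2, h1⟩
  have hDne : D.Nonempty := by
    obtain ⟨φ, h, _⟩ := hnorm (fun _ => false)
    exact ⟨φ, h⟩
  obtain ⟨φ, hφ⟩ := hDc.exists_eq_range hDne
  have hφb : ∀ n, φ n ∈ dualBall C(L cod, ℝ) := fun n => hDb (by rw [hφ]; exact mem_range_self n)
  set J : ℕ → Set Γ := fun n => {α | 7 / 8 < φ n (gf cod α)} with hJ
  have hcov : ∀ α, ∃ n, α ∈ J n := by
    intro α
    obtain ⟨ψ, h1, h2⟩ := hnorm α
    rw [hφ] at h1
    obtain ⟨n, rfl⟩ := h1
    exact ⟨n, h2⟩
  -- choose the tuples
  have htup : ∀ n, ∃ b : ℕ → Γ, (∃ T : Finset Γ, (T : Set Γ) ⊆ J n ∧ T.card = 4 * (n + 1)) →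
      Set.InjOn b (Set.Iio (4 * (n + 1))) ∧ ∀ i < 4 * (n + 1), b i ∈ J n := by
    intro n
    by_cases h : ∃ T : Finset Γ, (T : Set Γ) ⊆ J n ∧ T.card = 4 * (n + 1)
    · obtain ⟨T, hT1, hT2⟩ := h
      have eq := T.equivFinOfCardEq hT2
      refine ⟨fun i => if hi : i < 4 * (n + 1) then (eq.symm ⟨i, hi⟩ : T).1 else fun _ => false,
        fun _ => ⟨?_, ?_⟩⟩
      · intro i hi j hj hij
        simp only [mem_Iio] at hi hj
        simp only [hi, hj, dif_pos] at hij
        have := eq.symm.injective (Subtype.ext hij)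
        exact Fin.mk.inj_iff.mp this
      · intro i hi
        simp only [hi, dif_pos]
        exact hT1 (eq.symm ⟨i, hi⟩).2
    · exact ⟨fun _ _ => false, fun h' => absurd h' h⟩
  choose b hb using htup
  set Z : Set Γ := ⋃ n ∈ {n | ¬ ∃ T : Finset Γ, (T : Set Γ) ⊆ J n ∧ T.card = 4 * (n + 1)}, J n
    with hZ
  have hZc : Z.Countable := by
    apply Set.Countable.biUnion (to_countable _)
    intro n hn
    simp only [mem_ofPred_eq] at hn
    by_contra hunc
    have hinf : (J n).Infinite := fun hfin => hunc hfin.countable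
    obtain ⟨T, hT1, hT2⟩ := hinf.exists_subset_card_eq (4 * (n + 1))
    exact hn ⟨T, hT1, hT2⟩
  obtain ⟨α, hαZ, hα⟩ := exists_cod b hZc
  obtain ⟨n, hn⟩ := hcov α
  have hbig : ∃ T : Finset Γ, (T : Set Γ) ⊆ J n ∧ T.card = 4 * (n + 1) := by
    by_contra h
    apply hαZ
    rw [hZ, mem_iUnion₂]
    exact ⟨n, h, hn⟩
  obtain ⟨hinj, hmem⟩ := hb n hbig
  have hαn : cod α n = b n := by rw [hα]
  -- the sum
  set G : C(L cod, ℝ) := ∑ i ∈ Finset.range (4 * (n + 1)), gf cod (b n i) * gf cod α with hG
  have hG1 : ‖G‖ ≤ 3 * ((n : ℝ) + 1) := by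
    rw [ContinuousMap.norm_le _ (by positivity)]
    intro p
    have h1 : G p = ∑ i ∈ Finset.range (4 * (n + 1)), gf cod (b n i) p * gf cod α p := by
      rw [hG, ContinuousMap.sum_apply]
      rfl
    have h2 : 0 ≤ G p := by
      rw [h1]
      apply Finset.sum_nonneg
      intro i _
      rw [gf_apply, gf_apply]
      split_ifs <;> simp
    rw [Real.norm_of_nonneg h2, h1]
    have h3 := sum_le cod (α := α) (n := n) (by rw [hαn]; exact hinj) p
    rw [hαn] at h3
    exact h3
  have hG2 : φ n G ≤ 3 * ((n : ℝ) + 1) := apply_le cod (hφb n) hG1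
  have hG3 : φ n G = ∑ i ∈ Finset.range (4 * (n + 1)), φ n (gf cod (b n i) * gf cod α) := by
    rw [hG, map_sum]
  have hG4 : ∑ i ∈ Finset.range (4 * (n + 1)), (3 / 4 : ℝ) <
      ∑ i ∈ Finset.range (4 * (n + 1)), φ n (gf cod (b n i) * gf cod α) := by
    apply Finset.sum_lt_sum_of_nonempty
    · exact ⟨0, by simp⟩
    · intro i hi
      rw [Finset.mem_range] at hi
      have h1 : 7 / 8 < φ n (gf cod (b n i)) := hmem i hi
      have h2 : 7 / 8 < φ n (gf cod α) := hn
      have h3 : φ n (gf cod (b n i) + gf cod α - gf cod (b n i) * gf cod α) ≤ 1 :=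
        apply_le cod (hφb n) (norm_union_le cod α (b n i))
      rw [map_sub, map_add] at h3
      linarith
  rw [← hG3, Finset.sum_const, Finset.card_range, nsmul_eq_mul] at hG4
  push_cast at hG4
  linarith

end Pool.Agent.Lib.MP_d5a392_an
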