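import Mathlib

open MeasureTheory ProbabilityTheory Set Filter Topology
open scoped ENNReal

namespace Pool.Agent.Lib.MP_d5a392_an

/-- The Bernoulli measure with parameter `1/4` on `Bool`. -/
noncomputable def ber : Measure Bool :=
  (4⁻¹ : ℝ≥0∞) • Measure.dirac true + (3 * 4⁻¹ : ℝ≥0∞) • Measure.dirac false

instance : IsProbabilityMeasure ber := by
  constructor
  simp only [ber, Measure.coe_add, Measure.coe_smul, Pi.add_apply, Pi.smul_apply,
    Measure.dirac_apply' _ MeasurableSet.univ, indicator_univ, Pi.one_apply, smul_eq_mul, mul_one]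
  rw [← one_add_mul]
  norm_num
  exact ENNReal.mul_inv_cancel (by norm_num) (by norm_num)

lemma ber_true : ber {true} = 4⁻¹ := by
  simp [ber]

variable {ι : Type*}

/-- The product of Bernoulli measures. -/
noncomputable def P (ι : Type*) : Measure (ι → Bool) := Measure.infinitePi (fun _ => ber)

instance : IsProbabilityMeasure (P ι) := by unfold P; infer_instance

/-- Coordinatewise conjunction. -/
def meet (a y : ι → Bool) : ι → Bool := fun i => a i && y i

lemma measurable_meet (a : ι → Bool) : Measurable (meet a) := by
  unfold meet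
  apply measurable_pi_lambda
  intro i
  exact (measurable_from_top (f := fun b : Bool => (a i && b))).comp (measurable_pi_apply i)

lemma P_forall_true (s : Finset ι) : P ι {y | ∀ i ∈ s, y i = true} = 4⁻¹ ^ s.card := by
  have h1 : {y : ι → Bool | ∀ i ∈ s, y i = true} = Set.pi s (fun _ => {true}) := by
    ext y; simp [Set.pi]
  rw [h1, P, Measure.infinitePi_pi _ (fun i _ => MeasurableSet.singleton true)]
  simp [ber_true]

lemma integral_comp_inj {κ : Type*} {δ : κ → ι} (hδ : Function.Injective δ)
    {F : (κ → Bool) → ℝ} (hF : Measurable F) :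
    ∫ x, F x ∂(P κ) = ∫ y, F (fun k => y (δ k)) ∂(P ι) := by
  have h := Measure.map_infinitePi_infinitePi_of_inj (P := fun _ : ι => ber) hδ
  rw [P, ← h, integral_map]
  · rfl
  · exact (measurable_pi_lambda _ fun k => measurable_pi_apply (δ k)).aemeasurable
  · exact hF.aestronglyMeasurable

lemma DependsOn.measurable {α : Type*} [MeasurableSpace α] [Nonempty α] {u : (ι → Bool) → α} {Δ : Finset ι}
    (h : DependsOn u (Δ : Set ι)) : Measurable u := by
  rw [dependsOn_iff_exists_comp] at h
  obtain ⟨g, rfl⟩ := h
  have hf : Finite (↥(Δ : Set ι)) := Δ.finite_toSet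
  have : Finite (↥(Δ : Set ι) → Bool) := by
    infer_instance
  have h2 : Measurable g := measurable_of_finite g
  exact h2.comp (measurable_pi_lambda _ fun k => measurable_pi_apply _)

lemma DependsOn.bounded {u : (ι → Bool) → ℝ} {Δ : Finset ι}
    (h : DependsOn u (Δ : Set ι)) : ∃ C, ∀ y, |u y| ≤ C := by
  rw [dependsOn_iff_exists_comp] at h
  obtain ⟨g, rfl⟩ := h
  have : Finite (Δ : Set ι) := Δ.finite_toSet
  have hfin : (Set.range (fun z => |g z|)).Finite := Set.finite_range _
  obtain ⟨C, hC⟩ := hfin.bddAbove
  exact ⟨C, fun y => hC ⟨_, rfl⟩⟩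

lemma integrable_of_bdd {u : (ι → Bool) → ℝ} (hu : Measurable u) (hb : ∃ C, ∀ y, |u y| ≤ C) :
    Integrable u (P ι) := by
  obtain ⟨C, hC⟩ := hb
  exact Integrable.of_bound hu.aestronglyMeasurable C (Eventually.of_forall hC)

lemma indep_coord [DecidableEq ι] (γ : ι) {v : (ι → Bool) → ℝ} (hv : Measurable v)
    (hv2 : ∀ y, v (Function.update y γ false) = v y) :
    ∫ y, (if y γ = true then 0 else v y) ∂(P ι) = 3 / 4 * ∫ y, v y ∂(P ι) := by
  set φ : Bool → ℝ := fun b => if b = true then 0 else 1 with hφ
  have hind : iIndepFun (fun (i : ι) (ω : ι → Bool) => ω i) (P ι) :=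
    iIndepFun_infinitePi (P := fun _ : ι => ber) (X := fun _ b => b) (fun _ => measurable_id)
  have hI : IndepFun (fun y : ι → Bool => φ (y γ)) v (P ι) := by
    rw [IndepFun_iff_Indep]
    have hle : ∀ i : ι, MeasurableSpace.comap (fun ω : ι → Bool => ω i) inferInstance ≤
        (inferInstance : MeasurableSpace (ι → Bool)) := fun i =>
      (measurable_pi_apply i).comap_le
    have h1 := indep_iSup_of_disjoint hle hind.iIndep (S := {γ}) (T := {γ}ᶜ) disjoint_compl_right
    refine indep_of_indep_of_le_left (indep_of_indep_of_le_right h1 ?_) ?_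
    · -- comap v
      rw [← measurable_iff_comap_le]
      have hv' : v = v ∘ (fun y => Function.update y γ false) := by
        ext y; exact (hv2 y).symm
      rw [hv']
      refine hv.comp ?_
      rw [@measurable_pi_iff]
      intro i
      by_cases hi : i = γ
      · subst hi
        simp only [Function.update_self]
        exact measurable_const
      · simp only [Function.update_of_ne hi]
        rw [measurable_iff_comap_le]
        exact le_iSup₂_of_le (f := fun (j : ι) (_ : j ∈ ({γ}ᶜ : Set ι)) =>
          MeasurableSpace.comap (fun ω : ι → Bool => ω j) inferInstance) i hi le_rfl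
    · rw [← measurable_iff_comap_le]
      have hφm : Measurable φ := measurable_of_finite φ
      refine hφm.comp ?_
      rw [measurable_iff_comap_le]
      exact le_iSup₂_of_le (f := fun (j : ι) (_ : j ∈ ({γ} : Set ι)) =>
          MeasurableSpace.comap (fun ω : ι → Bool => ω j) inferInstance) γ rfl le_rfl
  have hφm : Measurable φ := measurable_of_finite φ
  have h2 := hI.integral_fun_mul_eq_mul_integral
    (hφm.comp (measurable_pi_apply γ)).aestronglyMeasurable hv.aestronglyMeasurable
  have h3 : ∫ y : ι → Bool, φ (y γ) ∂(P ι) = 3 / 4 := by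
    have h4 := (measurePreserving_eval_infinitePi (fun _ : ι => ber) γ)
    have h5 : ∫ b, φ b ∂ber = ∫ y : ι → Bool, φ (y γ) ∂(P ι) := by
      rw [← h4.map_eq, integral_map]
      · rfl
      · exact (measurable_pi_apply γ).aemeasurable
      · exact hφm.aestronglyMeasurable
    rw [← h5, ber, integral_add_measure, integral_smul_measure, integral_smul_measure,
      integral_dirac, integral_dirac]
    · simp [hφ]
      norm_num
    · exact (integrable_dirac (by simp)).smul_measure (by simp)
    · exact (integrable_dirac (by simp)).smul_measure (by simp [ENNReal.mul_eq_top])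
  rw [h3] at h2
  rw [← h2]
  congr 1
  ext y
  simp only [hφ]
  split_ifs <;> simp

end Pool.Agent.Lib.MP_d5a392_an
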