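import Pool.Agent.Lib.MP_d5a392_an.Key2

open MeasureTheory ProbabilityTheory Set Filter Topology
open scoped ENNReal

namespace Pool.Agent.Lib.MP_d5a392_an

variable (c : Γ → ℕ → ℕ → Γ)

/-- The `n`-th constraint coded by `α` is violated. -/
def V (α : Γ) (n : ℕ) : Set (Γ → Bool) :=
  {y | Set.InjOn (c α n) (Set.Iio (4 * (n + 1))) ∧
    3 * (n + 1) < ((Finset.range (4 * (n + 1))).filter (fun i => y (c α n i) = true)).card}

/-- All constraints coded by `α` are satisfied. -/
def R (α : Γ) : Set (Γ → Bool) := {y | ∀ n, y ∉ V c α n}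

/-- The first `M` constraints coded by `α` are satisfied. -/
def RM (α : Γ) (M : ℕ) : Set (Γ → Bool) := {y | ∀ n < M, y ∉ V c α n}

lemma V_mono {α : Γ} {n : ℕ} {y y' : Γ → Bool} (h : ∀ γ, y γ = true → y' γ = true)
    (hy : y ∈ V c α n) : y' ∈ V c α n := by
  refine ⟨hy.1, lt_of_lt_of_le hy.2 (Finset.card_le_card ?_)⟩
  intro i hi
  rw [Finset.mem_filter] at hi ⊢
  exact ⟨hi.1, h _ hi.2⟩

lemma meet_le (a y : Γ → Bool) (γ : Γ) (h : meet a y γ = true) : a γ = true ∧ y γ = true := by
  simpa [meet] using h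

lemma V_congr {α : Γ} {n : ℕ} {y y' : Γ → Bool}
    (h : ∀ i < 4 * (n + 1), y (c α n i) = y' (c α n i)) (hy : y ∈ V c α n) : y' ∈ V c α n := by
  refine ⟨hy.1, ?_⟩
  have : (Finset.range (4 * (n + 1))).filter (fun i => y' (c α n i) = true) =
      (Finset.range (4 * (n + 1))).filter (fun i => y (c α n i) = true) := by
    apply Finset.filter_congr
    intro i hi
    rw [h i (Finset.mem_range.mp hi)]
  rw [this]
  exact hy.2

open Classical in
lemma V_dep (α : Γ) (n : ℕ) : DependsOn (fun y => decide (y ∈ V c α n))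
    (((Finset.range (4 * (n + 1))).image (c α n) : Finset Γ) : Set Γ) := by
  intro y y' hyy
  have h : ∀ i < 4 * (n + 1), y (c α n i) = y' (c α n i) := fun i hi => by
    apply hyy
    simp only [Finset.coe_image, mem_image]
    exact ⟨i, by simpa using hi, rfl⟩
  simp only [decide_eq_decide]
  exact ⟨V_congr c h, V_congr c (fun i hi => (h i hi).symm)⟩

lemma measurableSet_V (α : Γ) (n : ℕ) : MeasurableSet (V c α n) := by
  classical
  have h := DependsOn.measurable (V_dep c α n)
  have h2 : V c α n = (fun y => decide (y ∈ V c α n)) ⁻¹' {true} := by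
    ext y; simp
  rw [h2]
  exact h (MeasurableSet.singleton true)

lemma measurableSet_R (α : Γ) : MeasurableSet (R c α) := by
  have : R c α = ⋂ n, (V c α n)ᶜ := by ext y; simp [R]
  rw [this]
  exact MeasurableSet.iInter fun n => (measurableSet_V c α n).compl

lemma P_V_le (α : Γ) (n : ℕ) : P Γ (V c α n) ≤ 4⁻¹ ^ (n + 1) := by
  classical
  by_cases hinj : Set.InjOn (c α n) (Set.Iio (4 * (n + 1)))
  · have hsub : V c α n ⊆ ⋃ I ∈ (Finset.range (4 * (n + 1))).powersetCard (3 * (n + 1)),
        {y | ∀ γ ∈ I.image (c α n), y γ = true} := by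
      intro y hy
      obtain ⟨I, hI1, hI2⟩ := Finset.exists_subset_card_eq (Nat.le_of_lt hy.2)
      rw [mem_iUnion₂]
      refine ⟨I, ?_, ?_⟩
      · rw [Finset.mem_powersetCard]
        exact ⟨hI1.trans (Finset.filter_subset _ _), hI2⟩
      · intro γ hγ
        rw [Finset.mem_image] at hγ
        obtain ⟨i, hi, rfl⟩ := hγ
        exact (Finset.mem_filter.mp (hI1 hi)).2
    refine (measure_mono hsub).trans ((measure_biUnion_finset_le _ _).trans ?_)
    have h1 : ∀ I ∈ (Finset.range (4 * (n + 1))).powersetCard (3 * (n + 1)),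
        P Γ {y | ∀ γ ∈ I.image (c α n), y γ = true} = 4⁻¹ ^ (3 * (n + 1)) := by
      intro I hI
      rw [Finset.mem_powersetCard] at hI
      rw [P_forall_true, Finset.card_image_of_injOn, hI.2]
      intro i hi j hj hij
      exact hinj (by simpa using hI.1 hi) (by simpa using hI.1 hj) hij
    rw [Finset.sum_congr rfl h1, Finset.sum_const, Finset.card_powersetCard, Finset.card_range,
      nsmul_eq_mul]
    have h2 : (((4 * (n + 1)).choose (3 * (n + 1)) : ℕ) : ℝ≥0∞) ≤ 4 ^ (2 * (n + 1)) := by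
      have h3 : (4 * (n + 1)).choose (3 * (n + 1)) ≤ 2 ^ (4 * (n + 1)) := Nat.choose_le_two_pow _ _
      have h4 : (2:ℕ) ^ (4 * (n + 1)) = 4 ^ (2 * (n + 1)) := by
        rw [show (4:ℕ) = 2 ^ 2 by norm_num, ← pow_mul]; congr 1; ring
      rw [h4] at h3
      exact_mod_cast h3
    have h5 : (4⁻¹ : ℝ≥0∞) ^ (3 * (n + 1)) = 4⁻¹ ^ (2 * (n + 1)) * 4⁻¹ ^ (n + 1) := by
      rw [← pow_add]; congr 1; ring
    rw [h5, ← mul_assoc]
    calc (((4 * (n + 1)).choose (3 * (n + 1)) : ℕ) : ℝ≥0∞) * 4⁻¹ ^ (2 * (n + 1)) * 4⁻¹ ^ (n + 1)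
        ≤ 4 ^ (2 * (n + 1)) * 4⁻¹ ^ (2 * (n + 1)) * 4⁻¹ ^ (n + 1) := by gcongr
      _ = 4⁻¹ ^ (n + 1) := by
        rw [← mul_pow, ENNReal.mul_inv_cancel (by norm_num) (by norm_num), one_pow, one_mul]
  · have : V c α n = ∅ := by
      ext y; simp only [V, mem_empty_iff_false, iff_false]
      exact fun hy => hinj hy.1
    rw [this]; simp

/-- The tail of the violations. -/
def tail (α : Γ) (M : ℕ) : Set (Γ → Bool) := ⋃ n, V c α (n + M)

lemma measurableSet_tail (α : Γ) (M : ℕ) : MeasurableSet (tail c α M) :=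
  MeasurableSet.iUnion fun n => measurableSet_V c α _

lemma tendsto_tail (α : Γ) : Tendsto (fun M => P Γ (tail c α M)) atTop (𝓝 0) := by
  have h1 : ∑' n, P Γ (V c α n) ≠ ∞ := by
    have h2 : ∑' n, P Γ (V c α n) ≤ ∑' n, (4⁻¹ : ℝ≥0∞) ^ (n + 1) :=
      ENNReal.tsum_le_tsum fun n => P_V_le c α n
    refine (h2.trans_lt ?_).ne
    simp_rw [pow_succ]
    rw [ENNReal.tsum_mul_right, ENNReal.tsum_geometric]
    apply ENNReal.mul_lt_top
    · rw [ENNReal.inv_lt_top]
      apply tsub_pos_of_lt
      rw [ENNReal.inv_lt_one]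
      norm_num
    · simp
  have h3 := ENNReal.tendsto_sum_nat_add (fun n => P Γ (V c α n)) h1
  exact tendsto_of_tendsto_of_tendsto_of_le_of_le tendsto_const_nhds h3 (fun _ => zero_le)
    (fun M => measure_iUnion_le _)

/-- The embedding of the index space. -/
noncomputable def e (y : Γ → Bool) : Γ → Bool × Bool := by
  classical
  exact fun α => (y α, decide (y ∈ R c α))

/-- The compact space. -/
def Lset : Set (Γ → Bool × Bool) := closure (range (e c))

/-- The compact space, as a type. -/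
abbrev L : Type := Lset c

instance : CompactSpace (L c) := isCompact_iff_compactSpace.mp isClosed_closure.isCompact

/-- The embedding into the compact space. -/
noncomputable def E (y : Γ → Bool) : L c := ⟨e c y, subset_closure ⟨y, rfl⟩⟩

lemma osc (g : C(L c, ℝ)) {ε : ℝ} (hε : 0 < ε) : ∃ F : Finset Γ, ∀ p q : L c,
    (∀ γ ∈ F, p.1 γ = q.1 γ) → |g p - g q| ≤ ε := by
  classical
  have h1 : ∀ p : L c, ∃ F : Finset Γ, ∀ q : L c, (∀ γ ∈ F, q.1 γ = p.1 γ) → |g q - g p| < ε / 2 := by
    intro p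
    have hopen : IsOpen {q : L c | |g q - g p| < ε / 2} :=
      isOpen_lt (by fun_prop) continuous_const
    obtain ⟨O, hO, hOeq⟩ := isOpen_induced_iff.mp hopen
    have hp : p.1 ∈ O := by
      have : p ∈ {q : L c | |g q - g p| < ε / 2} := by simp [hε]
      rw [← hOeq] at this
      exact this
    rw [isOpen_pi_iff] at hO
    obtain ⟨I, u, hu1, hu2⟩ := hO p.1 hp
    refine ⟨I, fun q hq => ?_⟩
    have hqO : q.1 ∈ O := by
      apply hu2
      intro γ hγ
      rw [hq γ hγ]
      exact (hu1 γ hγ).2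
    have : q ∈ {q : L c | |g q - g p| < ε / 2} := by
      rw [← hOeq]; exact hqO
    exact this
  choose F hF using h1
  obtain ⟨t, ht⟩ := CompactSpace.elim_nhds_subcover
    (fun p : L c => {q : L c | ∀ γ ∈ F p, q.1 γ = p.1 γ}) (by
      intro p
      apply IsOpen.mem_nhds
      · have : {q : L c | ∀ γ ∈ F p, q.1 γ = p.1 γ} = ⋂ γ ∈ F p, {q : L c | q.1 γ = p.1 γ} := by
          ext q; simp
        rw [this]
        apply isOpen_biInter_finset
        intro γ _
        have hc : Continuous (fun q : L c => q.1 γ) :=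
          (continuous_apply γ).comp continuous_subtype_val
        exact (isOpen_discrete {p.1 γ}).preimage hc
      · simp)
  refine ⟨t.biUnion F, fun p q hpq => ?_⟩
  have hp : p ∈ ⋃ x ∈ t, {q : L c | ∀ γ ∈ F x, q.1 γ = x.1 γ} := by rw [ht]; trivial
  rw [mem_iUnion₂] at hp
  obtain ⟨x, hx, hpx⟩ := hp
  have e1 := hF x p hpx
  have e2 := hF x q (fun γ hγ => by
    rw [← hpq γ (Finset.mem_biUnion.mpr ⟨x, hx, hγ⟩)]
    exact hpx γ hγ)
  have e3 := abs_sub_le (g p) (g x) (g q)
  rw [abs_sub_comm (g x)] at e3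
  linarith

/-- Approximation by functions of finitely many coordinates. -/
lemma exists_psi (g : C(L c, ℝ)) {ε : ℝ} (hε : 0 < ε) : ∃ (F : Finset Γ)
    (Ψ : (↥(F : Set Γ) → Bool × Bool) → ℝ), (∀ s, |Ψ s| ≤ ‖g‖) ∧
      ∀ p : L c, |Ψ (fun γ => p.1 γ) - g p| ≤ ε := by
  classical
  obtain ⟨F, hF⟩ := osc c g hε
  refine ⟨F, fun s => if h : ∃ p : L c, (fun γ : ↥(F : Set Γ) => p.1 γ) = s then g h.choose else 0,
    ?_, ?_⟩
  · intro s
    simp only
    split_ifs with h
    · exact g.norm_coe_le_norm _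
    · simp
  · intro p
    have h : ∃ q : L c, (fun γ : ↥(F : Set Γ) => q.1 γ) = (fun γ : ↥(F : Set Γ) => p.1 γ) := ⟨p, rfl⟩
    simp only [dif_pos h]
    apply hF
    intro γ hγ
    exact congrFun h.choose_spec ⟨γ, hγ⟩

lemma measurable_e (α : Γ) : Measurable (fun y => e c y α) := by
  classical
  unfold e
  apply (measurable_pi_apply α).prodMk
  apply measurable_to_bool
  have : (fun y => decide (y ∈ R c α)) ⁻¹' {true} = R c α := by ext y; simp
  rw [this]
  exact measurableSet_R c α

lemma finite_fun (F : Finset Γ) : Finite (↥(F : Set Γ) → Bool × Bool) := by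
  have : Finite (↥(F : Set Γ)) := F.finite_toSet
  infer_instance

lemma measurable_gE (g : C(L c, ℝ)) : Measurable (fun y => g (E c y)) := by
  choose F Ψ h1 h2 using fun k : ℕ => exists_psi c g (ε := (1 / 2 : ℝ) ^ k) (by positivity)
  have hm : ∀ k, Measurable (fun y => Ψ k (fun γ => e c y γ)) := by
    intro k
    have := finite_fun (F k)
    have hΨ : Measurable (Ψ k) := measurable_of_finite _
    have h3 : Measurable (fun y => (fun γ : ↥(F k : Set Γ) => e c y γ)) :=
      measurable_pi_lambda _ fun γ => measurable_e c γ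
    exact hΨ.comp h3
  apply measurable_of_tendsto_metrizable hm
  rw [tendsto_pi_nhds]
  intro y
  rw [tendsto_iff_norm_sub_tendsto_zero]
  have hlim : Tendsto (fun k : ℕ => (1 / 2 : ℝ) ^ k) atTop (𝓝 0) :=
    tendsto_pow_atTop_nhds_zero_of_lt_one (by norm_num) (by norm_num)
  exact squeeze_zero (fun k => norm_nonneg _) (fun k => h2 k (E c y)) hlim

lemma nice_gE (g : C(L c, ℝ)) : Nice (fun y => g (E c y)) := by
  classical
  refine ⟨measurable_gE c g, ⟨‖g‖, fun y => g.norm_coe_le_norm _⟩, fun ε hε => ?_⟩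
  obtain ⟨F, Ψ, hΨ1, hΨ2⟩ := exists_psi c g (ε := ε / 2) (by positivity)
  -- choose M
  have hlim : Tendsto (fun M => ∑ γ ∈ F, P Γ (tail c γ M)) atTop (𝓝 (∑ γ ∈ F, 0)) :=
    tendsto_finsetSum _ fun γ _ => tendsto_tail c γ
  rw [Finset.sum_const_zero] at hlim
  set κ : ℝ := ε / (4 * (‖g‖ + 1)) with hκ
  have hκ0 : 0 < κ := by positivity
  obtain ⟨M, hM⟩ := (hlim.eventually (gt_mem_nhds (show (0:ℝ≥0∞) < ENNReal.ofReal κ by
    simp [hκ0]))).exists
  set Z : Set (Γ → Bool) := ⋃ γ ∈ F, tail c γ M with hZ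
  have hZm : MeasurableSet Z := F.measurableSet_biUnion fun γ _ => measurableSet_tail c γ M
  have hZP : (P Γ).real Z ≤ κ := by
    have h1 : P Γ Z ≤ ENNReal.ofReal κ := (measure_biUnion_finset_le F _).trans hM.le
    exact ENNReal.toReal_le_of_le_ofReal hκ0.le h1
  set u : (Γ → Bool) → ℝ := fun y => Ψ (fun γ => (y γ, decide (y ∈ RM c γ M))) with hu
  have hdep : ∃ Δ : Finset Γ, DependsOn u (Δ : Set Γ) := by
    refine ⟨F ∪ F.biUnion (fun γ => (Finset.range M).biUnion
      (fun n => (Finset.range (4 * (n + 1))).image (c γ n))), ?_⟩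
    intro y y' hyy
    simp only [hu]
    congr 1
    ext1 γ
    have hγ : (γ : Γ) ∈ F := γ.2
    have h1 : y γ = y' γ := hyy _ (by
      simp only [Finset.coe_union, mem_union]; left; exact γ.2)
    have h2 : ∀ n < M, ∀ i < 4 * (n + 1), y (c γ n i) = y' (c γ n i) := by
      intro n hn i hi
      apply hyy
      simp only [Finset.coe_union, mem_union, Finset.mem_coe, Finset.mem_biUnion, Finset.mem_image,
        Finset.mem_range]
      right
      exact ⟨γ, hγ, n, hn, i, hi, rfl⟩
    have h3 : y ∈ RM c γ M ↔ y' ∈ RM c γ M := by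
      constructor
      · intro h n hn hv
        exact h n hn (V_congr c (fun i hi => (h2 n hn i hi).symm) hv)
      · intro h n hn hv
        exact h n hn (V_congr c (fun i hi => (h2 n hn i hi)) hv)
    rw [h1]
    simp only [h3]
  refine ⟨u, hdep, fun a => ?_⟩
  obtain ⟨Δ, hΔ⟩ := hdep
  have hpt : ∀ y, |u (meet a y) - g (E c (meet a y))| ≤
      ε / 2 + Z.indicator (fun _ => 2 * ‖g‖) y := by
    intro y
    by_cases hy : y ∈ Z
    · rw [indicator_of_mem hy]
      have h1 : |u (meet a y)| ≤ ‖g‖ := hΨ1 _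
      have h2 : |g (E c (meet a y))| ≤ ‖g‖ := g.norm_coe_le_norm _
      have h3 := abs_sub (u (meet a y)) (g (E c (meet a y)))
      linarith
    · rw [indicator_of_notMem hy, add_zero]
      have h1 : u (meet a y) = Ψ (fun γ => e c (meet a y) γ) := by
        simp only [hu, e]
        congr 1
        ext1 γ
        congr 1
        rw [decide_eq_decide]
        constructor
        · intro h n hv
          by_cases hn : n < M
          · exact h n hn hv
          · apply hy
            rw [hZ, mem_iUnion₂]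
            refine ⟨γ, γ.2, ?_⟩
            rw [tail, mem_iUnion]
            refine ⟨n - M, ?_⟩
            rw [Nat.sub_add_cancel (not_lt.mp hn)]
            exact V_mono c (fun δ hδ => (meet_le a y δ hδ).2) hv
        · intro h n _ hv
          exact h n hv
      rw [h1]
      exact hΨ2 (E c (meet a y))
  have hui : Integrable (fun y => u (meet a y)) (P Γ) :=
    int1 (DependsOn.measurable hΔ) (DependsOn.bounded hΔ) a
  have hgi : Integrable (fun y => g (E c (meet a y))) (P Γ) :=
    int1 (measurable_gE c g) ⟨‖g‖, fun y => g.norm_coe_le_norm _⟩ a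
  have hZi : Integrable (Z.indicator (fun _ => 2 * ‖g‖)) (P Γ) :=
    (integrable_const _).indicator hZm
  have e1 := integral_mono (hui.sub hgi).abs ((integrable_const (ε / 2)).add hZi) hpt
  have e2 : ∫ y, |u (meet a y) - g (E c (meet a y))| ∂(P Γ) ≤
      ∫ y, (ε / 2 + Z.indicator (fun _ => 2 * ‖g‖) y) ∂(P Γ) := e1
  rw [integral_add (integrable_const _) hZi, integral_const, integral_indicator hZm,
    setIntegral_const] at e2
  simp only [probReal_univ, smul_eq_mul, one_mul] at e2
  have h4 : (P Γ).real Z * (2 * ‖g‖) ≤ κ * (2 * ‖g‖) := by gcongr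
  have h5 : κ * (2 * ‖g‖) ≤ ε / 2 := by
    rw [hκ, div_mul_eq_mul_div, div_le_iff₀ (by positivity)]
    nlinarith [norm_nonneg g]
  linarith

/-- Boundedness almost everywhere for all biases implies boundedness everywhere. -/
lemma bounded_of_ae (g : C(L c, ℝ)) {r : ℝ} (h : ∀ a, ∀ᵐ y ∂(P Γ), |g (E c (meet a y))| ≤ r)
    (y0 : Γ → Bool) : |g (E c y0)| ≤ r := by
  classical
  by_contra hcon
  push Not at hcon
  obtain ⟨F, hF⟩ := osc c g (ε := (|g (E c y0)| - r) / 2) (by linarith)
  -- violated constraints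
  have hviol : ∀ γ : Γ, ∃ n, y0 ∉ R c γ → y0 ∈ V c γ n := by
    intro γ
    by_cases hγ : y0 ∈ R c γ
    · exact ⟨0, fun h' => absurd hγ h'⟩
    · simp only [R, mem_ofPred_eq, not_forall, not_not] at hγ
      obtain ⟨n, hn⟩ := hγ
      exact ⟨n, fun _ => hn⟩
  choose nv hnv using hviol
  set H : Finset Γ := F ∪ F.biUnion (fun γ => (Finset.range (4 * (nv γ + 1))).image (c γ (nv γ)))
    with hH
  have hpos : P Γ {y | ∀ γ ∈ H, y γ = true} ≠ 0 := by
    rw [P_forall_true]
    apply pow_ne_zero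
    simp
  have hsub : {y : Γ → Bool | ∀ γ ∈ H, y γ = true} ⊆ {y | ¬ |g (E c (meet y0 y))| ≤ r} := by
    intro y hy
    have hagree : ∀ γ ∈ H, meet y0 y γ = y0 γ := by
      intro γ hγ
      simp [meet, hy γ hγ]
    have hEq : ∀ γ ∈ F, (E c (meet y0 y)).1 γ = (E c y0).1 γ := by
      intro γ hγ
      have h1 : meet y0 y γ = y0 γ := hagree γ (Finset.mem_union_left _ hγ)
      have h2 : meet y0 y ∈ R c γ ↔ y0 ∈ R c γ := by
        constructor
        · intro hR
          by_contra hR0
          have hv := hnv γ hR0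
          apply hR (nv γ)
          refine V_congr c (fun i hi => ?_) hv
          symm
          apply hagree
          refine Finset.mem_union_right _ (Finset.mem_biUnion.mpr ⟨γ, hγ, ?_⟩)
          exact Finset.mem_image_of_mem _ (Finset.mem_range.mpr hi)
        · intro hR n hv
          exact hR n (V_mono c (fun δ hδ => (meet_le y0 y δ hδ).1) hv)
      simp only [E, e]
      rw [h1]
      simp only [h2]
    have h3 := hF _ _ hEq
    simp only [mem_ofPred_eq, not_le]
    have h4 : |g (E c y0)| ≤ |g (E c (meet y0 y))| + |g (E c (meet y0 y)) - g (E c y0)| := by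
      have := abs_sub (g (E c (meet y0 y))) (g (E c (meet y0 y)) - g (E c y0))
      simpa using this
    linarith
  have h0 : P Γ {y | ¬ |g (E c (meet y0 y))| ≤ r} = 0 := h y0
  exact hpos (measure_mono_null hsub h0)

lemma norm_le_iff (g : C(L c, ℝ)) {r : ℝ} (hr : 0 ≤ r) :
    ‖g‖ ≤ r ↔ ∀ a, ∀ᵐ y ∂(P Γ), |g (E c (meet a y))| ≤ r := by
  constructor
  · intro h a
    exact Eventually.of_forall fun y => (g.norm_coe_le_norm _).trans h
  · intro h
    rw [ContinuousMap.norm_le _ hr]
    intro p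
    have hcl : IsClosed {p : L c | ‖g p‖ ≤ r} := isClosed_le (by fun_prop) continuous_const
    have hdense : DenseRange (E c) := by
      intro p
      rw [closure_subtype]
      have : (Subtype.val '' range (E c) : Set (Γ → Bool × Bool)) = range (e c) := by
        rw [← range_comp]; rfl
      rw [this]
      exact p.2
    have : ∀ p, p ∈ {p : L c | ‖g p‖ ≤ r} := by
      intro p
      exact hdense.induction_on (p := fun p => ‖g p‖ ≤ r) p hcl (fun y => bounded_of_ae c g h y)
    exact this p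

end Pool.Agent.Lib.MP_d5a392_an
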