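import Pool.Agent.Lib.MP_d5a392_an.Prob

open MeasureTheory ProbabilityTheory Set Filter Topology
open scoped ENNReal

namespace Pool.Agent.Lib.MP_d5a392_an

variable {ι : Type*}

lemma weighted_bound {u : (ι → Bool) → ℝ} (hu : Measurable u) (hb : ∃ C, ∀ y, |u y| ≤ C) {ε : ℝ}
    (h : ∀ a, |∫ y, u (meet a y) ∂(P ι)| ≤ ε) (Δ : Finset ι) :
    ∀ σ : (ι → Bool) → ℝ, Measurable σ → (∀ y, |σ y| ≤ 1) → DependsOn σ (Δ : Set ι) →
      ∀ a, |∫ y, σ y * u (meet a y) ∂(P ι)| ≤ 3 ^ Δ.card * ε := by
  classical
  have hε : 0 ≤ ε := (abs_nonneg _).trans (h (fun _ => false))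
  have hint : ∀ (σ : (ι → Bool) → ℝ), Measurable σ → (∀ y, |σ y| ≤ 1) → ∀ a,
      Measurable (fun y => σ y * u (meet a y)) ∧ Integrable (fun y => σ y * u (meet a y)) (P ι) := by
    intro σ hσ hσ1 a
    have hm : Measurable (fun y => σ y * u (meet a y)) := hσ.mul (hu.comp (measurable_meet a))
    refine ⟨hm, integrable_of_bdd hm ?_⟩
    obtain ⟨C, hC⟩ := hb
    refine ⟨C, fun y => ?_⟩
    rw [abs_mul]
    calc |σ y| * |u (meet a y)| ≤ 1 * |u (meet a y)| := by
          gcongr; exact hσ1 y
      _ ≤ C := by rw [one_mul]; exact hC _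
  induction Δ using Finset.induction_on with
  | empty =>
    intro σ hσ hσ1 hdep a
    have hconst : ∀ y, σ y = σ (fun _ => false) := fun y => hdep (by simp)
    have : (fun y => σ y * u (meet a y)) = fun y => σ (fun _ => false) * u (meet a y) := by
      ext y; rw [hconst y]
    rw [this, integral_const_mul, abs_mul, Finset.card_empty, pow_zero, one_mul]
    calc |σ (fun _ => false)| * |∫ y, u (meet a y) ∂(P ι)| ≤ 1 * ε := by
          gcongr
          · exact hσ1 _
          · exact h a
      _ = ε := one_mul _
  | insert γ Δ hγ ih =>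
    intro σ hσ hσ1 hdep a
    set σ0 : (ι → Bool) → ℝ := fun y => σ (Function.update y γ false) with hσ0
    set σ1 : (ι → Bool) → ℝ := fun y => σ (Function.update y γ true) with hσ1'
    have hup : ∀ b : Bool, Measurable (fun y : ι → Bool => Function.update y γ b) := by
      intro b
      apply measurable_pi_lambda
      intro i
      by_cases hi : i = γ
      · subst hi; simp only [Function.update_self]; exact measurable_const
      · simp only [Function.update_of_ne hi]; exact measurable_pi_apply i
    have hm0 : Measurable σ0 := hσ.comp (hup false)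
    have hm1 : Measurable σ1 := hσ.comp (hup true)
    have hdep' : ∀ b : Bool, DependsOn (fun y => σ (Function.update y γ b)) (Δ : Set ι) := by
      intro b x y hxy
      apply hdep
      intro i hi
      by_cases hiγ : i = γ
      · subst hiγ; simp
      · rw [Function.update_of_ne hiγ, Function.update_of_ne hiγ]
        apply hxy
        simp only [Finset.coe_insert, Set.mem_insert_iff] at hi
        exact hi.resolve_left hiγ
    have hb0 : ∀ y, |σ0 y| ≤ 1 := fun y => hσ1 _
    have hb1 : ∀ y, |σ1 y| ≤ 1 := fun y => hσ1 _
    set a' : ι → Bool := Function.update a γ false with ha'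
    -- decomposition
    have hdec : ∀ y, σ y * u (meet a y) = σ1 y * u (meet a y) -
        (if y γ = true then 0 else σ1 y * u (meet a' y)) +
        (if y γ = true then 0 else σ0 y * u (meet a' y)) := by
      intro y
      by_cases hy : y γ = true
      · have : Function.update y γ true = y := by
          rw [← hy]; exact Function.update_eq_self γ y
        simp only [hσ1', if_pos hy, this]
        ring
      · have hy' : y γ = false := by simpa using hy
        have h1 : Function.update y γ false = y := by
          rw [← hy']; exact Function.update_eq_self γ y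
        have h2 : meet a' y = meet a y := by
          ext i
          by_cases hi : i = γ
          · subst hi; simp [meet, hy']
          · simp [meet, ha', Function.update_of_ne hi]
        simp only [if_neg hy, h2, hσ0, h1]
        ring
    have hv : ∀ b : Bool, ∫ y, (if y γ = true then 0 else
        σ (Function.update y γ b) * u (meet a' y)) ∂(P ι) =
        3 / 4 * ∫ y, σ (Function.update y γ b) * u (meet a' y) ∂(P ι) := by
      intro b
      apply indep_coord γ
      · exact (hσ.comp (hup b)).mul (hu.comp (measurable_meet a'))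
      · intro y
        have h1 : Function.update (Function.update y γ false) γ b = Function.update y γ b := by
          simp
        have h2 : meet a' (Function.update y γ false) = meet a' y := by
          ext i
          by_cases hi : i = γ
          · subst hi; simp [meet, ha']
          · simp [meet, Function.update_of_ne hi]
        rw [h1, h2]
    have hiv : ∀ b : Bool, Integrable (fun y => (if y γ = true then 0 else
        σ (Function.update y γ b) * u (meet a' y))) (P ι) := by
      intro b
      apply integrable_of_bdd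
      · apply Measurable.ite
        · exact measurableSet_eq_fun (measurable_pi_apply γ) measurable_const
        · exact measurable_const
        · exact (hσ.comp (hup b)).mul (hu.comp (measurable_meet a'))
      · obtain ⟨C, hC⟩ := hb
        refine ⟨C, fun y => ?_⟩
        have hC0 : 0 ≤ C := (abs_nonneg _).trans (hC (fun _ => false))
        split_ifs
        · simpa using hC0
        · rw [abs_mul]
          calc _ ≤ 1 * |u (meet a' y)| := by
                gcongr; exact hσ1 _
            _ ≤ C := by rw [one_mul]; exact hC _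
    have hI1 := hint σ1 hm1 hb1 a
    have hsum : ∫ y, σ y * u (meet a y) ∂(P ι) = ∫ y, σ1 y * u (meet a y) ∂(P ι) -
        3 / 4 * ∫ y, σ1 y * u (meet a' y) ∂(P ι) + 3 / 4 * ∫ y, σ0 y * u (meet a' y) ∂(P ι) := by
      simp_rw [hdec]
      rw [integral_add, integral_sub, hv true, hv false]
      · exact hI1.2
      · exact hiv true
      · exact hI1.2.sub (hiv true)
      · exact hiv false
    rw [hsum]
    have e1 := ih σ1 hm1 hb1 (hdep' true) a
    have e2 := ih σ1 hm1 hb1 (hdep' true) a'
    have e3 := ih σ0 hm0 hb0 (hdep' false) a'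
    rw [Finset.card_insert_of_notMem hγ, pow_succ]
    have hK : 0 ≤ 3 ^ Δ.card * ε := by positivity
    rw [abs_le] at e1 e2 e3 ⊢
    constructor <;> nlinarith [e1.1, e1.2, e2.1, e2.2, e3.1, e3.2]

lemma totality {u : ℕ → (ι → Bool) → ℝ} (hdep : ∀ k, ∃ Δ : Finset ι, DependsOn (u k) (Δ : Set ι))
    {ε : ℕ → ℝ} (hε : Tendsto ε atTop (𝓝 0)) (h1 : ∀ k a, |∫ y, u k (meet a y) ∂(P ι)| ≤ ε k)
    {η : ℕ → ℝ} (h2 : ∀ j k, j ≤ k → ∀ a,
      ∫ y, |u j (meet a y) - u k (meet a y)| ∂(P ι) ≤ η j) :
    ∀ j a, ∫ y, |u j (meet a y)| ∂(P ι) ≤ η j := by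
  intro j a
  have hmeas : ∀ k, Measurable (u k) := fun k => by
    obtain ⟨Δ, hΔ⟩ := hdep k; exact DependsOn.measurable hΔ
  have hbdd : ∀ k, ∃ C, ∀ y, |u k y| ≤ C := fun k => by
    obtain ⟨Δ, hΔ⟩ := hdep k; exact DependsOn.bounded hΔ
  have hint : ∀ k, Integrable (fun y => u k (meet a y)) (P ι) := fun k => by
    apply integrable_of_bdd ((hmeas k).comp (measurable_meet a))
    obtain ⟨C, hC⟩ := hbdd k
    exact ⟨C, fun y => hC _⟩
  obtain ⟨Δ, hΔ⟩ := hdep j
  set σ : (ι → Bool) → ℝ := fun y => if 0 ≤ u j (meet a y) then 1 else -1 with hσ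
  have hσm : Measurable σ := by
    apply Measurable.ite
    · exact measurableSet_le measurable_const ((hmeas j).comp (measurable_meet a))
    · exact measurable_const
    · exact measurable_const
  have hσ1 : ∀ y, |σ y| ≤ 1 := by
    intro y; simp only [hσ]; split_ifs <;> simp
  have hσdep : DependsOn σ (Δ : Set ι) := by
    intro x y hxy
    have : u j (meet a x) = u j (meet a y) := by
      apply hΔ
      intro i hi
      simp only [meet]
      rw [hxy i hi]
    simp only [hσ, this]
  have hσint : ∀ k, Integrable (fun y => σ y * u k (meet a y)) (P ι) := fun k => by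
    apply integrable_of_bdd (hσm.mul ((hmeas k).comp (measurable_meet a)))
    obtain ⟨C, hC⟩ := hbdd k
    refine ⟨C, fun y => ?_⟩
    change |σ y * u k (meet a y)| ≤ C
    rw [abs_mul]
    calc _ ≤ 1 * |u k (meet a y)| := by
          gcongr; exact hσ1 _
      _ ≤ C := by rw [one_mul]; exact hC _
  have hle : ∀ k, j ≤ k → ∫ y, |u j (meet a y)| ∂(P ι) ≤ 3 ^ Δ.card * ε k + η j := by
    intro k hjk
    have e1 : ∫ y, |u j (meet a y)| ∂(P ι) = ∫ y, σ y * u j (meet a y) ∂(P ι) := by
      congr 1
      ext y
      simp only [hσ]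
      split_ifs with h
      · rw [abs_of_nonneg h, one_mul]
      · push Not at h
        rw [abs_of_neg h]; ring
    have e2 : ∫ y, σ y * u j (meet a y) ∂(P ι) = ∫ y, σ y * u k (meet a y) ∂(P ι) +
        ∫ y, σ y * (u j (meet a y) - u k (meet a y)) ∂(P ι) := by
      rw [← integral_add (hσint k)]
      · congr 1; ext y; ring
      · have := (hσint j).sub (hσint k)
        refine this.congr (Eventually.of_forall fun y => ?_)
        simp only [Pi.sub_apply]; ring
    have e3 := weighted_bound (hmeas k) (hbdd k) (h1 k) Δ σ hσm hσ1 hσdep a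
    have e4 : ∫ y, σ y * (u j (meet a y) - u k (meet a y)) ∂(P ι) ≤
        ∫ y, |u j (meet a y) - u k (meet a y)| ∂(P ι) := by
      have hi1 : Integrable (fun y => σ y * (u j (meet a y) - u k (meet a y))) (P ι) := by
        have := (hσint j).sub (hσint k)
        refine this.congr (Eventually.of_forall fun y => ?_)
        simp only [Pi.sub_apply]; ring
      have hi2 : Integrable (fun y => |u j (meet a y) - u k (meet a y)|) (P ι) :=
        ((hint j).sub (hint k)).abs
      apply integral_mono hi1 hi2
      intro y
      calc σ y * (u j (meet a y) - u k (meet a y)) ≤ |σ y * (u j (meet a y) - u k (meet a y))| :=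
            le_abs_self _
        _ = |σ y| * |u j (meet a y) - u k (meet a y)| := abs_mul _ _
        _ ≤ 1 * |u j (meet a y) - u k (meet a y)| := by gcongr; exact hσ1 _
        _ = _ := one_mul _
    have e5 := h2 j k hjk a
    rw [e1, e2]
    linarith [le_abs_self (∫ y, σ y * u k (meet a y) ∂(P ι))]
  have hlim : Tendsto (fun k => 3 ^ Δ.card * ε k + η j) atTop (𝓝 (3 ^ Δ.card * 0 + η j)) :=
    (hε.const_mul _).add_const _
  rw [mul_zero, zero_add] at hlim
  exact ge_of_tendsto hlim (eventually_atTop.mpr ⟨j, hle⟩)

end Pool.Agent.Lib.MP_d5a392_an
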